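import Pool.Agent.Helper54.PH.Group

set_option autoImplicit false

open scoped ContDiff ComplexConjugate Topology

namespace Pool.Agent.Helper54.PH

open QO

/-- The ambient complex vector space. -/
abbrev V : Type := ℂ × ℂ × ℂ

/-- The domain: upper half plane times the complex plane squared. -/
def XX : Set V := {v | 0 < v.1.im}

theorem isOpen_XX : IsOpen XX :=
  isOpen_lt continuous_const (Complex.continuous_im.comp continuous_fst)

/-- The automorphy factor. -/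
noncomputable def jj (g : Gp) (t : ℂ) : ℂ := (C g.c : ℂ) * t + (D g.c : ℂ)

/-- The action. -/
noncomputable def act (g : Gp) (v : V) : V :=
  (((A g.c : ℂ) * v.1 + (B g.c : ℂ)) / jj g v.1,
    (v.2.1 + (A g.m : ℂ) * v.1 + (B g.m : ℂ)) / jj g v.1,
    (v.2.2 + (C g.m : ℂ) * v.1 + (D g.m : ℂ)) / jj g v.1)

theorem det_one (g : Gp) : A g.c * D g.c - B g.c * C g.c = 1 := by
  rw [det_eq, g.norm_c]; simp

theorem jj_ne (g : Gp) {t : ℂ} (ht : 0 < t.im) : jj g t ≠ 0 := by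
  intro h
  have h1 := congrArg Complex.im h
  have h2 := congrArg Complex.re h
  simp [jj] at h1 h2
  have hC : C g.c = 0 := by
    rcases h1 with h1 | h1
    · exact h1
    · exact absurd h1 ht.ne'
  rw [hC] at h2
  have hD : D g.c = 0 := by simpa using h2
  have h3 := det_one g
  rw [hC, hD] at h3
  simp at h3

theorem act_im (g : Gp) {t : ℂ} (ht : 0 < t.im) :
    (((A g.c : ℂ) * t + (B g.c : ℂ)) / jj g t).im = t.im / Complex.normSq (jj g t) := by
  have h := det_one g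
  have hn : Complex.normSq (jj g t) ≠ 0 := by
    rw [Ne, Complex.normSq_eq_zero]; exact jj_ne g ht
  rw [Complex.div_im]
  field_simp
  simp only [jj, Complex.add_im, Complex.mul_im, Complex.ofReal_re, Complex.ofReal_im,
    Complex.add_re, Complex.mul_re]
  linear_combination (t.im) * h

theorem act_mem (g : Gp) {v : V} (hv : v ∈ XX) : act g v ∈ XX := by
  show 0 < (((A g.c : ℂ) * v.1 + (B g.c : ℂ)) / jj g v.1).im
  rw [act_im g hv]
  exact div_pos hv (Complex.normSq_pos.mpr (jj_ne g hv))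

theorem act_one (v : V) : act 1 v = v := by
  simp [act, jj, Gp.one_c, Gp.one_m]

theorem jj_mul (g h : Gp) {t : ℂ} (ht : 0 < t.im) :
    jj (g * h) t = jj g (((A h.c : ℂ) * t + (B h.c : ℂ)) / jj h t) * jj h t := by
  have hj := jj_ne h ht
  have h1 : jj g (((A h.c : ℂ) * t + (B h.c : ℂ)) / jj h t) * jj h t =
      (C g.c : ℂ) * ((A h.c : ℂ) * t + (B h.c : ℂ)) + (D g.c : ℂ) * jj h t := by
    rw [jj, add_mul, mul_assoc, div_mul_cancel₀ _ hj]
  rw [h1]
  simp only [jj, Gp.mul_c, C_mul, D_mul]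
  push_cast
  ring

theorem act_mul (g h : Gp) {v : V} (hv : v ∈ XX) : act (g * h) v = act g (act h v) := by
  have ht : 0 < v.1.im := hv
  have hj := jj_ne h ht
  have hm : act h v ∈ XX := act_mem h hv
  have ht' : 0 < (((A h.c : ℂ) * v.1 + (B h.c : ℂ)) / jj h v.1).im := hm
  have hj' := jj_ne g ht'
  have hjj := jj_mul g h ht
  refine Prod.ext ?_ (Prod.ext ?_ ?_)
  · show ((A (g * h).c : ℂ) * v.1 + (B (g * h).c : ℂ)) / jj (g * h) v.1 =
      ((A g.c : ℂ) * (((A h.c : ℂ) * v.1 + (B h.c : ℂ)) / jj h v.1) + (B g.c : ℂ)) /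
        jj g (((A h.c : ℂ) * v.1 + (B h.c : ℂ)) / jj h v.1)
    rw [hjj, div_eq_div_iff (mul_ne_zero hj' hj) hj']
    have h1 : ((A g.c : ℂ) * (((A h.c : ℂ) * v.1 + (B h.c : ℂ)) / jj h v.1) + (B g.c : ℂ)) *
        jj h v.1 = (A g.c : ℂ) * ((A h.c : ℂ) * v.1 + (B h.c : ℂ)) + (B g.c : ℂ) * jj h v.1 := by
      rw [add_mul, mul_assoc, div_mul_cancel₀ _ hj]
    have h2 : (A (g * h).c : ℂ) * v.1 + (B (g * h).c : ℂ) =
        (A g.c : ℂ) * ((A h.c : ℂ) * v.1 + (B h.c : ℂ)) + (B g.c : ℂ) * jj h v.1 := by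
      simp only [jj, Gp.mul_c, A_mul, B_mul]
      push_cast
      ring
    rw [h2, ← h1]
    ring
  · show (v.2.1 + (A (g * h).m : ℂ) * v.1 + (B (g * h).m : ℂ)) / jj (g * h) v.1 =
      ((v.2.1 + (A h.m : ℂ) * v.1 + (B h.m : ℂ)) / jj h v.1 +
        (A g.m : ℂ) * (((A h.c : ℂ) * v.1 + (B h.c : ℂ)) / jj h v.1) + (B g.m : ℂ)) /
        jj g (((A h.c : ℂ) * v.1 + (B h.c : ℂ)) / jj h v.1)
    rw [hjj, div_eq_div_iff (mul_ne_zero hj' hj) hj']
    have h1 : ((v.2.1 + (A h.m : ℂ) * v.1 + (B h.m : ℂ)) / jj h v.1 +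
        (A g.m : ℂ) * (((A h.c : ℂ) * v.1 + (B h.c : ℂ)) / jj h v.1) + (B g.m : ℂ)) *
        jj h v.1 = (v.2.1 + (A h.m : ℂ) * v.1 + (B h.m : ℂ)) +
          (A g.m : ℂ) * ((A h.c : ℂ) * v.1 + (B h.c : ℂ)) + (B g.m : ℂ) * jj h v.1 := by
      rw [add_mul, add_mul, mul_assoc, div_mul_cancel₀ _ hj, div_mul_cancel₀ _ hj]
    have h2 : v.2.1 + (A (g * h).m : ℂ) * v.1 + (B (g * h).m : ℂ) =
        (v.2.1 + (A h.m : ℂ) * v.1 + (B h.m : ℂ)) +
          (A g.m : ℂ) * ((A h.c : ℂ) * v.1 + (B h.c : ℂ)) + (B g.m : ℂ) * jj h v.1 := by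
      simp only [jj, Gp.mul_m, A_mul, B_mul, A_add, B_add]
      push_cast
      ring
    rw [h2, ← h1]
    ring
  · show (v.2.2 + (C (g * h).m : ℂ) * v.1 + (D (g * h).m : ℂ)) / jj (g * h) v.1 =
      ((v.2.2 + (C h.m : ℂ) * v.1 + (D h.m : ℂ)) / jj h v.1 +
        (C g.m : ℂ) * (((A h.c : ℂ) * v.1 + (B h.c : ℂ)) / jj h v.1) + (D g.m : ℂ)) /
        jj g (((A h.c : ℂ) * v.1 + (B h.c : ℂ)) / jj h v.1)
    rw [hjj, div_eq_div_iff (mul_ne_zero hj' hj) hj']
    have h1 : ((v.2.2 + (C h.m : ℂ) * v.1 + (D h.m : ℂ)) / jj h v.1 +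
        (C g.m : ℂ) * (((A h.c : ℂ) * v.1 + (B h.c : ℂ)) / jj h v.1) + (D g.m : ℂ)) *
        jj h v.1 = (v.2.2 + (C h.m : ℂ) * v.1 + (D h.m : ℂ)) +
          (C g.m : ℂ) * ((A h.c : ℂ) * v.1 + (B h.c : ℂ)) + (D g.m : ℂ) * jj h v.1 := by
      rw [add_mul, add_mul, mul_assoc, div_mul_cancel₀ _ hj, div_mul_cancel₀ _ hj]
    have h2 : v.2.2 + (C (g * h).m : ℂ) * v.1 + (D (g * h).m : ℂ) =
        (v.2.2 + (C h.m : ℂ) * v.1 + (D h.m : ℂ)) +
          (C g.m : ℂ) * ((A h.c : ℂ) * v.1 + (B h.c : ℂ)) + (D g.m : ℂ) * jj h v.1 := by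
      simp only [jj, Gp.mul_m, C_mul, D_mul, C_add, D_add]
      push_cast
      ring
    rw [h2, ← h1]
    ring

theorem contDiffAt_jj (g : Gp) (v : V) : ContDiffAt ℂ ω (fun v : V => jj g v.1) v := by
  unfold jj
  fun_prop

theorem act_smooth (g : Gp) {v : V} (hv : v ∈ XX) : ContDiffAt ℂ ω (act g) v := by
  have hj : jj g v.1 ≠ 0 := jj_ne g hv
  have hJ := contDiffAt_jj g v
  unfold act
  refine ContDiffAt.prodMk ?_ (ContDiffAt.prodMk ?_ ?_)
  · exact ContDiffAt.div (by fun_prop) hJ hj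
  · exact ContDiffAt.div (by fun_prop) hJ hj
  · exact ContDiffAt.div (by fun_prop) hJ hj

/-- The action is free. -/
theorem act_free (g : Gp) {v : V} (hv : v ∈ XX) (h : act g v = v) : g = 1 := by
  have ht : 0 < v.1.im := hv
  have hj := jj_ne g ht
  have h1 : ((A g.c : ℂ) * v.1 + (B g.c : ℂ)) / jj g v.1 = v.1 := congrArg Prod.fst h
  have h2 : (v.2.1 + (A g.m : ℂ) * v.1 + (B g.m : ℂ)) / jj g v.1 = v.2.1 :=
    congrArg (fun w : V => w.2.1) h
  have h3 : (v.2.2 + (C g.m : ℂ) * v.1 + (D g.m : ℂ)) / jj g v.1 = v.2.2 :=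
    congrArg (fun w : V => w.2.2) h
  rw [div_eq_iff hj] at h1 h2 h3
  have hdet := det_one g
  have e1 := congrArg Complex.im h1
  have e2 := congrArg Complex.re h1
  simp only [jj, Complex.add_im, Complex.mul_im, Complex.ofReal_re, Complex.ofReal_im,
    Complex.add_re, Complex.mul_re] at e1 e2
  ring_nf at e1 e2
  -- the trace
  set a := A g.c
  set b := B g.c
  set c := C g.c
  set d := D g.c
  set x := v.1.re
  set y := v.1.im
  have hy : y ≠ 0 := ht.ne'
  have e1' : a = 2 * c * x + d := by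
    have : y * (a - (2 * c * x + d)) = 0 := by linarith
    rcases mul_eq_zero.mp this with h | h
    · exact absurd h hy
    · linarith
  have e2' : b = -c * (x ^ 2 + y ^ 2) := by
    have : a * x + b = c * (x ^ 2 - y ^ 2) + d * x := by linarith
    rw [e1'] at this
    nlinarith
  -- (a + d)^2 = 4 - 4 c^2 y^2
  have e3 : (a + d) ^ 2 = 4 - 4 * c ^ 2 * y ^ 2 := by
    have : 4 * (a * d - b * c) = 4 := by rw [hdet]; ring
    rw [e2', e1'] at this
    rw [e1']
    nlinarith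
  have e4 : a + d = 2 * (g.c.re : ℝ) := by simp only [a, d, A, D]; ring
  obtain ⟨δ, hδ⟩ := g.cong
  have hre : g.c.re = 1 + 3 * δ.re := by
    rw [hδ]
    simp only [QuaternionAlgebra.re_add, QuaternionAlgebra.re_one, QuaternionAlgebra.re_smul,
      smul_eq_mul]
  have e5 : (g.c.re : ℝ) ^ 2 ≤ 1 := by
    have : (2 * (g.c.re : ℝ)) ^ 2 ≤ 4 := by
      rw [← e4, e3]; nlinarith [mul_nonneg (sq_nonneg c) (sq_nonneg y)]
    nlinarith
  have e6 : g.c.re ^ 2 ≤ 1 := by exact_mod_cast e5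
  have e7 : g.c.re = 1 := by
    have h1 : g.c.re ≤ 1 := by nlinarith
    have h2 : -1 ≤ g.c.re := by nlinarith
    omega
  have e8 : c ^ 2 * y ^ 2 = 0 := by
    rw [e4, e7] at e3
    push_cast at e3
    nlinarith
  have hc0 : c = 0 := by
    rcases mul_eq_zero.mp e8 with h | h
    · exact pow_eq_zero_iff (two_ne_zero) |>.mp h
    · exact absurd (pow_eq_zero_iff (two_ne_zero) |>.mp h) hy
  have hb0 : b = 0 := by rw [e2', hc0]; ring
  have had : a = d := by rw [e1', hc0]; ring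
  have ha1 : a = 1 := by
    have : a + d = 2 := by rw [e4, e7]; norm_num
    linarith
  have hgc : g.c = 1 := by
    apply ext_ABCD
    · rw [A_one]; exact ha1
    · rw [B_one]; exact hb0
    · rw [C_one]; exact hc0
    · rw [D_one]; exact had.symm.trans ha1
  have hj1 : jj g v.1 = 1 := by
    rw [jj, hgc]; simp
  rw [hj1, mul_one] at h2 h3
  have h2' : (A g.m : ℂ) * v.1 + (B g.m : ℂ) = 0 := by linear_combination h2
  have h3' : (C g.m : ℂ) * v.1 + (D g.m : ℂ) = 0 := by linear_combination h3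
  have lin : ∀ α β : ℝ, (α : ℂ) * v.1 + (β : ℂ) = 0 → α = 0 ∧ β = 0 := by
    intro α β h
    have i1 := congrArg Complex.im h
    have i2 := congrArg Complex.re h
    simp at i1 i2
    have hα : α = 0 := by
      rcases i1 with i1 | i1
      · exact i1
      · exact absurd i1 hy
    rw [hα] at i2
    simp at i2
    exact ⟨hα, i2⟩
  obtain ⟨m1, m2⟩ := lin _ _ h2'
  obtain ⟨m3, m4⟩ := lin _ _ h3'
  have hgm : g.m = 0 := by
    apply ext_ABCD
    · rw [A_zero]; exact m1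
    · rw [B_zero]; exact m2
    · rw [C_zero]; exact m3
    · rw [D_zero]; exact m4
  exact Gp.ext hgm hgc

end Pool.Agent.Helper54.PH
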