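import Pool.Agent.Helper54.PH.Minkowski

set_option autoImplicit false

open scoped ContDiff ComplexConjugate Topology ENNReal
open Set Topology MeasureTheory

namespace Pool.Agent.Helper54.PH

open QO

/-- Finitely many representatives of the elements of bounded norm. -/
theorem exists_reps : ∃ F : Set QO, F.Finite ∧ ∀ y : QO, N y ≠ 0 → |N y| ≤ 8 →
    ∃ y₀ ∈ F, N y₀ = N y ∧ ∃ δ : QO, y = y₀ + (3 * N y) • δ := by
  let S : Set QO := {y | N y ≠ 0 ∧ |N y| ≤ 8}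
  let key : QO → ℤ × ℤ × ℤ × ℤ × ℤ := fun y =>
    (N y, y.re % (3 * N y), y.imI % (3 * N y), y.imJ % (3 * N y), y.imK % (3 * N y))
  have hbox : ((Set.Icc (-8 : ℤ) 8) ×ˢ (Set.Icc (0 : ℤ) 24) ×ˢ (Set.Icc (0 : ℤ) 24) ×ˢ
      (Set.Icc (0 : ℤ) 24) ×ˢ (Set.Icc (0 : ℤ) 24)).Finite :=
    (Set.finite_Icc _ _).prod ((Set.finite_Icc _ _).prod ((Set.finite_Icc _ _).prod
      ((Set.finite_Icc _ _).prod (Set.finite_Icc _ _))))
  have himg : (key '' S).Finite := by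
    refine hbox.subset ?_
    rintro _ ⟨y, ⟨hy1, hy2⟩, rfl⟩
    have h3 : (3 * N y) ≠ 0 := mul_ne_zero (by norm_num) hy1
    have hb : |3 * N y| ≤ 24 := by rw [abs_mul]; norm_num; linarith
    have hk : ∀ x : ℤ, x % (3 * N y) ∈ Set.Icc (0 : ℤ) 24 := fun x =>
      ⟨Int.emod_nonneg _ h3, (Int.emod_lt_abs x h3).le.trans hb⟩
    exact ⟨abs_le.mp hy2, hk _, hk _, hk _, hk _⟩
  obtain ⟨F, hF1, hF2⟩ := Set.exists_subset_bijOn S key
  refine ⟨F, hF2.finite_iff_finite.mpr himg, ?_⟩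
  intro y hy1 hy2
  obtain ⟨y₀, hy₀, hkey⟩ := hF2.surjOn (⟨y, ⟨hy1, hy2⟩, rfl⟩ : key y ∈ key '' S)
  refine ⟨y₀, hy₀, congrArg Prod.fst hkey, ?_⟩
  have e0 : N y₀ = N y := congrArg Prod.fst hkey
  have e1 : y₀.re % (3 * N y₀) = y.re % (3 * N y) := congrArg (fun p => p.2.1) hkey
  have e2 : y₀.imI % (3 * N y₀) = y.imI % (3 * N y) := congrArg (fun p => p.2.2.1) hkey
  have e3 : y₀.imJ % (3 * N y₀) = y.imJ % (3 * N y) := congrArg (fun p => p.2.2.2.1) hkey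
  have e4 : y₀.imK % (3 * N y₀) = y.imK % (3 * N y) := congrArg (fun p => p.2.2.2.2) hkey
  rw [e0] at e1 e2 e3 e4
  obtain ⟨d1, hd1⟩ := Int.ModEq.dvd e1
  obtain ⟨d2, hd2⟩ := Int.ModEq.dvd e2
  obtain ⟨d3, hd3⟩ := Int.ModEq.dvd e3
  obtain ⟨d4, hd4⟩ := Int.ModEq.dvd e4
  refine ⟨⟨d1, d2, d3, d4⟩, ?_⟩
  ext
  · simp only [QuaternionAlgebra.re_add, QuaternionAlgebra.re_smul, smul_eq_mul]; linarith
  · simp only [QuaternionAlgebra.imI_add, QuaternionAlgebra.imI_smul, smul_eq_mul]; linarith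
  · simp only [QuaternionAlgebra.imJ_add, QuaternionAlgebra.imJ_smul, smul_eq_mul]; linarith
  · simp only [QuaternionAlgebra.imK_add, QuaternionAlgebra.imK_smul, smul_eq_mul]; linarith

theorem im_identity (y : QO) (t : ℂ) :
    (((A y : ℂ) * t + (B y : ℂ)) * conj ((C y : ℂ) * t + (D y : ℂ))).im = N y * t.im := by
  have h := det_eq y
  simp only [map_add, map_mul, Complex.conj_ofReal, Complex.add_im, Complex.mul_im,
    Complex.ofReal_re, Complex.ofReal_im, Complex.add_re, Complex.mul_re, Complex.conj_re,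
    Complex.conj_im]
  linear_combination t.im * h

theorem N_bound {y : QO} {t : ℂ} (ht : 0 < t.im)
    (h1 : ‖(A y : ℂ) * t + (B y : ℂ)‖ ^ 2 ≤ 8 * t.im)
    (h2 : ‖(C y : ℂ) * t + (D y : ℂ)‖ ^ 2 ≤ 8 * t.im) : |N y| ≤ 8 := by
  have h := im_identity y t
  have h3 := Complex.abs_im_le_norm
    (((A y : ℂ) * t + (B y : ℂ)) * conj ((C y : ℂ) * t + (D y : ℂ)))
  rw [h, norm_mul, Complex.norm_conj, abs_mul, abs_of_pos ht] at h3
  have h4 : ‖(A y : ℂ) * t + (B y : ℂ)‖ * ‖(C y : ℂ) * t + (D y : ℂ)‖ ≤ 8 * t.im := by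
    nlinarith [sq_nonneg (‖(A y : ℂ) * t + (B y : ℂ)‖ - ‖(C y : ℂ) * t + (D y : ℂ)‖)]
  have h5 : |(N y : ℝ)| ≤ 8 := by
    have := h3.trans h4
    exact le_of_mul_le_mul_right this ht
  exact_mod_cast h5

theorem exists_short (t : ℂ) (ht : 0 < t.im) : ∃ y : QO, y ≠ 0 ∧
    ‖(A y : ℂ) * t + (B y : ℂ)‖ ^ 2 ≤ 8 * t.im ∧ ‖(C y : ℂ) * t + (D y : ℂ)‖ ^ 2 ≤ 8 * t.im := by
  obtain ⟨y, hy0, h1, h2, h3, h4⟩ := minkowski_step t.re t.im ht
  have hs : 0 < √t.im := Real.sqrt_pos.mpr ht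
  have hss : √t.im * √t.im = t.im := Real.mul_self_sqrt ht.le
  have key : ∀ α β : ℝ, |α| ≤ 2 / √t.im → |α * t.re + β| ≤ 2 * √t.im →
      ‖(α : ℂ) * t + (β : ℂ)‖ ^ 2 ≤ 8 * t.im := by
    intro α β k1 k2
    rw [← Complex.normSq_eq_norm_sq, Complex.normSq_apply]
    simp only [Complex.add_re, Complex.mul_re, Complex.ofReal_re, Complex.ofReal_im,
      Complex.add_im, Complex.mul_im]
    rw [le_div_iff₀ hs] at k1
    have k3 : (|α| * √t.im) ^ 2 ≤ 2 ^ 2 := by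
      apply pow_le_pow_left₀ (by positivity) k1
    have k4 : α ^ 2 * t.im ≤ 4 := by
      have : (|α| * √t.im) ^ 2 = α ^ 2 * t.im := by
        rw [mul_pow, sq_abs, pow_two (√t.im), hss]
      linarith
    have k5 : (α * t.re + β) ^ 2 ≤ 4 * t.im := by
      have := pow_le_pow_left₀ (abs_nonneg _) k2 2
      rw [sq_abs, mul_pow, pow_two (√t.im), hss] at this
      linarith
    have k6 : α ^ 2 * t.im * t.im ≤ 4 * t.im := mul_le_mul_of_nonneg_right k4 ht.le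
    nlinarith
  exact ⟨y, hy0, key _ _ h1 h2, key _ _ h3 h4⟩

/-- The congruence subgroup acts cocompactly on the upper half plane. -/
theorem cocompact_H : ∃ R : ℝ, 1 ≤ R ∧ ∀ t : ℂ, 0 < t.im → ∃ c : QO, N c = 1 ∧
    (∃ d : QO, c = 1 + (3 : ℤ) • d) ∧
    ‖((A c : ℂ) * t + (B c : ℂ)) / ((C c : ℂ) * t + (D c : ℂ))‖ ≤ R ∧
    1 / R ≤ (((A c : ℂ) * t + (B c : ℂ)) / ((C c : ℂ) * t + (D c : ℂ))).im := by
  obtain ⟨F, hF, hrep⟩ := exists_reps
  obtain ⟨b, hb⟩ : ∃ b : ℝ, ∀ y ∈ F, |A y| ≤ b ∧ |B y| ≤ b ∧ |C y| ≤ b ∧ |D y| ≤ b := by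
    have h1 := (hF.image (fun y : QO => |A y| + |B y| + |C y| + |D y|)).bddAbove
    obtain ⟨b, hb⟩ := h1
    refine ⟨b, fun y hy => ?_⟩
    have h2 := hb ⟨y, hy, rfl⟩
    simp only at h2
    have a1 := abs_nonneg (A y)
    have a2 := abs_nonneg (B y)
    have a3 := abs_nonneg (C y)
    have a4 := abs_nonneg (D y)
    refine ⟨?_, ?_, ?_, ?_⟩ <;> linarith
  refine ⟨32 * b ^ 2 + 1, by nlinarith [sq_nonneg b], ?_⟩
  intro t ht
  obtain ⟨y, hy0, h1, h2⟩ := exists_short t ht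
  have hN0 : N y ≠ 0 := fun h => hy0 (eq_zero_of_N y h)
  obtain ⟨y₀, hy₀F, hNy, δ, hδ⟩ := hrep y hN0 (N_bound ht h1 h2)
  obtain ⟨bA, bB, bC, bD⟩ := hb y₀ hy₀F
  have hb0 : 0 ≤ b := (abs_nonneg _).trans bA
  set c : QO := 1 + (3 : ℤ) • (star y₀ * δ) with hc
  have hyc : y = y₀ * c := by
    rw [hc, mul_add, mul_one, mul_smul_comm, ← mul_assoc, mul_star_self', hNy, smul_mul_assoc,
      one_mul, smul_smul]
    exact hδ
  have hNc : N c = 1 := by
    have h := N_mul y₀ c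
    rw [← hyc, hNy] at h
    have : N y * (N c - 1) = 0 := by linarith
    rcases mul_eq_zero.mp this with h' | h'
    · exact absurd h' hN0
    · linarith
  refine ⟨c, hNc, ⟨_, hc⟩, ?_⟩
  set g : Gp := ⟨0, c, hNc, _, hc⟩
  set j := (C c : ℂ) * t + (D c : ℂ) with hj
  set s := ((A c : ℂ) * t + (B c : ℂ)) / j with hs
  have hjne : j ≠ 0 := jj_ne g ht
  have him : s.im = t.im / Complex.normSq j := act_im g ht
  have hjpos : 0 < Complex.normSq j := Complex.normSq_pos.mpr hjne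
  have hspos : 0 < s.im := by rw [him]; exact div_pos ht hjpos
  have hsj : s * j = (A c : ℂ) * t + (B c : ℂ) := by rw [hs, div_mul_cancel₀ _ hjne]
  -- the entries of y
  have eP : (A y : ℂ) * t + (B y : ℂ) = ((A y₀ : ℂ) * s + (B y₀ : ℂ)) * j := by
    rw [hyc, A_mul, B_mul, add_mul, mul_assoc, hsj, hj]
    push_cast; ring
  have eQ : (C y : ℂ) * t + (D y : ℂ) = ((C y₀ : ℂ) * s + (D y₀ : ℂ)) * j := by
    rw [hyc, C_mul, D_mul, add_mul, mul_assoc, hsj, hj]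
    push_cast; ring
  have hdet : ((A y₀ : ℂ) * (D y₀ : ℂ) - (B y₀ : ℂ) * (C y₀ : ℂ)) = (N y : ℂ) := by
    have := det_eq y₀
    rw [hNy] at this
    exact_mod_cast this
  have e1 : (N y : ℂ) * j =
      -(C y₀ : ℂ) * ((A y : ℂ) * t + (B y : ℂ)) + (A y₀ : ℂ) * ((C y : ℂ) * t + (D y : ℂ)) := by
    rw [eP, eQ, ← hdet]; ring
  have e2 : (N y : ℂ) * s * j =
      (D y₀ : ℂ) * ((A y : ℂ) * t + (B y : ℂ)) - (B y₀ : ℂ) * ((C y : ℂ) * t + (D y : ℂ)) := by
    rw [eP, eQ, ← hdet]; ring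
  have hN1 : (1 : ℝ) ≤ |(N y : ℝ)| := by
    have : (1 : ℤ) ≤ |N y| := Int.one_le_abs hN0
    exact_mod_cast this
  have hNn : ‖(N y : ℂ)‖ = |(N y : ℝ)| := by
    rw [show (N y : ℂ) = ((N y : ℝ) : ℂ) by push_cast; rfl, Complex.norm_real, Real.norm_eq_abs]
  -- bounds
  set P := ‖(A y : ℂ) * t + (B y : ℂ)‖ with hP
  set Q := ‖(C y : ℂ) * t + (D y : ℂ)‖ with hQ
  have hP0 : 0 ≤ P := norm_nonneg _
  have hQ0 : 0 ≤ Q := norm_nonneg _
  have hPQ : (b * P + b * Q) ^ 2 ≤ 32 * b ^ 2 * t.im := by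
    have : (P + Q) ^ 2 ≤ 32 * t.im := by nlinarith [sq_nonneg (P - Q)]
    have hb2 : 0 ≤ b ^ 2 := sq_nonneg b
    nlinarith
  have f1 : ‖j‖ ≤ b * P + b * Q := by
    have h := congrArg norm e1
    rw [norm_mul, hNn] at h
    have h' : ‖-(C y₀ : ℂ) * ((A y : ℂ) * t + (B y : ℂ)) +
        (A y₀ : ℂ) * ((C y : ℂ) * t + (D y : ℂ))‖ ≤ b * P + b * Q := by
      refine (norm_add_le _ _).trans (add_le_add ?_ ?_)
      · rw [norm_mul, norm_neg, Complex.norm_real, Real.norm_eq_abs]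
        exact mul_le_mul_of_nonneg_right bC hP0
      · rw [norm_mul, Complex.norm_real, Real.norm_eq_abs]
        exact mul_le_mul_of_nonneg_right bA hQ0
    have h'' : 1 * ‖j‖ ≤ |(N y : ℝ)| * ‖j‖ := mul_le_mul_of_nonneg_right hN1 (norm_nonneg _)
    linarith
  have f2 : ‖s‖ * ‖j‖ ≤ b * P + b * Q := by
    have h := congrArg norm e2
    rw [norm_mul, norm_mul, hNn] at h
    have h' : ‖(D y₀ : ℂ) * ((A y : ℂ) * t + (B y : ℂ)) -
        (B y₀ : ℂ) * ((C y : ℂ) * t + (D y : ℂ))‖ ≤ b * P + b * Q := by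
      refine (norm_sub_le _ _).trans (add_le_add ?_ ?_)
      · rw [norm_mul, Complex.norm_real, Real.norm_eq_abs]
        exact mul_le_mul_of_nonneg_right bD hP0
      · rw [norm_mul, Complex.norm_real, Real.norm_eq_abs]
        exact mul_le_mul_of_nonneg_right bB hQ0
    have h'' : 1 * (‖s‖ * ‖j‖) ≤ |(N y : ℝ)| * (‖s‖ * ‖j‖) :=
      mul_le_mul_of_nonneg_right hN1 (by positivity)
    linarith
  have hjn : Complex.normSq j = ‖j‖ ^ 2 := Complex.normSq_eq_norm_sq j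
  have hv : t.im = s.im * ‖j‖ ^ 2 := by
    rw [him, hjn]; rw [hjn] at hjpos; field_simp
  have hjn0 : 0 < ‖j‖ ^ 2 := by rw [← hjn]; exact hjpos
  have hbPQ0 : 0 ≤ b * P + b * Q := by positivity
  have g1 : ‖j‖ ^ 2 ≤ 32 * b ^ 2 * t.im :=
    (pow_le_pow_left₀ (norm_nonneg _) f1 2).trans hPQ
  have g2 : ‖s‖ ^ 2 * ‖j‖ ^ 2 ≤ 32 * b ^ 2 * t.im := by
    rw [← mul_pow]
    exact (pow_le_pow_left₀ (by positivity) f2 2).trans hPQ
  rw [hv] at g1 g2
  have g3 : 1 ≤ 32 * b ^ 2 * s.im := by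
    have : 1 * ‖j‖ ^ 2 ≤ (32 * b ^ 2 * s.im) * ‖j‖ ^ 2 := by linarith
    exact le_of_mul_le_mul_right this hjn0
  have g4 : ‖s‖ ^ 2 ≤ 32 * b ^ 2 * s.im := by
    have : ‖s‖ ^ 2 * ‖j‖ ^ 2 ≤ (32 * b ^ 2 * s.im) * ‖j‖ ^ 2 := by linarith
    exact le_of_mul_le_mul_right this hjn0
  have hsn : s.im ≤ ‖s‖ := Complex.im_le_norm s
  have hs0 : 0 < ‖s‖ := lt_of_lt_of_le hspos hsn
  constructor
  · have : ‖s‖ * ‖s‖ ≤ 32 * b ^ 2 * ‖s‖ := by
      have : 32 * b ^ 2 * s.im ≤ 32 * b ^ 2 * ‖s‖ :=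
        mul_le_mul_of_nonneg_left hsn (by positivity)
      nlinarith
    have := le_of_mul_le_mul_right this hs0
    linarith
  · rw [div_le_iff₀ (by positivity)]
    nlinarith

/-! ### Translations -/

theorem round_lemma (α β : ℝ) : ∃ x z : ℤ, |α + (x + √3 * z)| ≤ 2 ∧ |β + (x - √3 * z)| ≤ 2 := by
  have hs := s3_pos
  have hs2 : √3 ≤ 2 := by
    rw [show (2 : ℝ) = √4 by rw [show (4 : ℝ) = 2 ^ 2 by norm_num]; simp]
    exact Real.sqrt_le_sqrt (by norm_num)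
  refine ⟨round (-(α + β) / 2), round (-(α - β) / (2 * √3)), ?_, ?_⟩
  · have h1 := abs_sub_round (-(α + β) / 2)
    have h2 := abs_sub_round (-(α - β) / (2 * √3))
    set x := ((round (-(α + β) / 2) : ℤ) : ℝ)
    set z := ((round (-(α - β) / (2 * √3)) : ℤ) : ℝ)
    have e : α + (x + √3 * z) = -(-(α + β) / 2 - x) - √3 * (-(α - β) / (2 * √3) - z) := by
      field_simp; ring
    rw [e]
    refine (abs_sub _ _).trans ?_
    rw [abs_neg, abs_mul, abs_of_pos hs]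
    nlinarith
  · have h1 := abs_sub_round (-(α + β) / 2)
    have h2 := abs_sub_round (-(α - β) / (2 * √3))
    set x := ((round (-(α + β) / 2) : ℤ) : ℝ)
    set z := ((round (-(α - β) / (2 * √3)) : ℤ) : ℝ)
    have e : β + (x - √3 * z) = -(-(α + β) / 2 - x) + √3 * (-(α - β) / (2 * √3) - z) := by
      field_simp; ring
    rw [e]
    refine (abs_add_le _ _).trans ?_
    rw [abs_neg, abs_mul, abs_of_pos hs]
    nlinarith

theorem translate (t z1 z2 : ℂ) (ht : 0 < t.im) : ∃ m : QO,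
    ‖z1 + (A m : ℂ) * t + (B m : ℂ)‖ ≤ 2 * ‖t‖ + 2 ∧
    ‖z2 + (C m : ℂ) * t + (D m : ℂ)‖ ≤ 2 * ‖t‖ + 2 := by
  set p1 := z1.im / t.im
  set p2 := z2.im / t.im
  set q1 := z1.re - p1 * t.re
  set q2 := z2.re - p2 * t.re
  obtain ⟨x, z, h1, h2⟩ := round_lemma p1 q2
  obtain ⟨y, w, h3, h4⟩ := round_lemma q1 (-p2)
  refine ⟨⟨x, y, z, -w⟩, ?_, ?_⟩
  · have e : z1 + (A (⟨x, y, z, -w⟩ : QO) : ℂ) * t + (B (⟨x, y, z, -w⟩ : QO) : ℂ) =
        ((p1 + (x + √3 * z) : ℝ) : ℂ) * t + ((q1 + (y + √3 * w) : ℝ) : ℂ) := by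
      apply Complex.ext
      · simp [A, B, q1]; ring
      · simp [A, B, p1]; field_simp
    rw [e]
    refine (norm_add_le _ _).trans (add_le_add ?_ ?_)
    · rw [norm_mul, Complex.norm_real, Real.norm_eq_abs]
      exact mul_le_mul_of_nonneg_right h1 (norm_nonneg _)
    · rw [Complex.norm_real, Real.norm_eq_abs]; exact h3
  · have e : z2 + (C (⟨x, y, z, -w⟩ : QO) : ℂ) * t + (D (⟨x, y, z, -w⟩ : QO) : ℂ) =
        ((p2 - (y - √3 * w) : ℝ) : ℂ) * t + ((q2 + (x - √3 * z) : ℝ) : ℂ) := by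
      apply Complex.ext
      · simp [C, D, q2]; ring
      · simp [C, D, p2]; field_simp; ring
    rw [e]
    refine (norm_add_le _ _).trans (add_le_add ?_ ?_)
    · rw [norm_mul, Complex.norm_real, Real.norm_eq_abs]
      have : |p2 - (y - √3 * w)| ≤ 2 := by
        rw [show p2 - (y - √3 * w) = -(-p2 + (y - √3 * w)) by ring, abs_neg]; exact h4
      exact mul_le_mul_of_nonneg_right this (norm_nonneg _)
    · rw [Complex.norm_real, Real.norm_eq_abs]; exact h2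

theorem cocompact : ∃ ε R : ℝ, 0 < ε ∧ ∀ v ∈ XX, ∃ g : Gp, act g v ∈ box ε R := by
  obtain ⟨R, hR1, hR⟩ := cocompact_H
  refine ⟨1 / R, 2 * R + 2, by positivity, ?_⟩
  intro v hv
  obtain ⟨c, hc, hcong, h1, h2⟩ := hR v.1 hv
  let g : Gp := ⟨0, c, hc, hcong⟩
  have hm : act g v ∈ XX := act_mem g hv
  have k1 : ‖(act g v).1‖ ≤ R := h1
  have k2 : 1 / R ≤ (act g v).1.im := h2
  obtain ⟨m, hm1, hm2⟩ := translate (act g v).1 (act g v).2.1 (act g v).2.2 hm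
  let h : Gp := ⟨m, 1, N_one, 0, by simp⟩
  refine ⟨h * g, ?_⟩
  rw [act_mul h g hv]
  have hj : jj h (act g v).1 = 1 := by simp [jj, h]
  have e1 : (act h (act g v)).1 = (act g v).1 := by
    show ((A h.c : ℂ) * (act g v).1 + (B h.c : ℂ)) / jj h (act g v).1 = (act g v).1
    rw [hj]; simp [h]
  have e2 : (act h (act g v)).2.1 = (act g v).2.1 + (A m : ℂ) * (act g v).1 + (B m : ℂ) := by
    show ((act g v).2.1 + (A h.m : ℂ) * (act g v).1 + (B h.m : ℂ)) / jj h (act g v).1 = _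
    rw [hj, div_one]
  have e3 : (act h (act g v)).2.2 = (act g v).2.2 + (C m : ℂ) * (act g v).1 + (D m : ℂ) := by
    show ((act g v).2.2 + (C h.m : ℂ) * (act g v).1 + (D h.m : ℂ)) / jj h (act g v).1 = _
    rw [hj, div_one]
  refine ⟨?_, ?_⟩
  · rw [Prod.norm_def, Prod.norm_def, e1, e2, e3]
    refine max_le (by linarith) (max_le ?_ ?_)
    · linarith
    · linarith
  · rw [e1]; exact k2

instance : CompactSpace MM := by
  obtain ⟨ε, R, hε, h⟩ := cocompact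
  have hcl : IsClosed (box ε R) := by
    apply IsClosed.inter
    · exact isClosed_le continuous_norm continuous_const
    · exact isClosed_le continuous_const (Complex.continuous_im.comp continuous_fst)
  have hcpt : IsCompact (box ε R) := by
    refine (isCompact_closedBall (0 : V) R).of_isClosed_subset hcl ?_
    intro v hv
    rw [mem_closedBall_zero_iff]
    exact hv.1
  have hsub : box ε R ⊆ XX := fun v hv => lt_of_lt_of_le hε hv.2
  have hcpt' : IsCompact (Subtype.val ⁻¹' (box ε R) : Set XX) := by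
    rw [Topology.IsInducing.subtypeVal.isCompact_iff]
    rwa [Subtype.image_preimage_val, Set.inter_eq_right.mpr hsub]
  have hcont : Continuous pr := continuous_quot_mk
  constructor
  have : (Set.univ : Set MM) = pr '' (Subtype.val ⁻¹' (box ε R)) := by
    symm
    rw [Set.eq_univ_iff_forall]
    intro m
    obtain ⟨v, rfl⟩ := pr_surjective m
    obtain ⟨g, hg⟩ := h v v.2
    refine ⟨⟨act g v, act_mem g v.2⟩, hg, ?_⟩
    rw [eq_comm, pr_eq_iff]
    exact ⟨g, rfl⟩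
  rw [this]
  exact hcpt'.image hcont

instance : ConnectedSpace MM := by
  have hconv : Convex ℝ XX := by
    intro v hv w hw a b ha hb hab
    show 0 < (a • v + b • w).1.im
    have hv' : 0 < v.1.im := hv
    have hw' : 0 < w.1.im := hw
    have e : (a • v + b • w).1.im = a * v.1.im + b * w.1.im := by
      simp
    rw [e]
    rcases ha.lt_or_eq with h | h
    · have : 0 ≤ b * w.1.im := by positivity
      have : 0 < a * v.1.im := by positivity
      linarith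
    · rw [← h] at hab ⊢
      have : b = 1 := by linarith
      rw [this]; linarith
  have hne : XX.Nonempty := ⟨_, base_mem⟩
  have : ConnectedSpace XX := isConnected_iff_connectedSpace.mp (hconv.isConnected hne)
  have hcont : Continuous pr := continuous_quot_mk
  exact pr_surjective.connectedSpace hcont

end Pool.Agent.Helper54.PH
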