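import Pool.Agent.Helper54.PH.Defs

set_option autoImplicit false

open scoped Manifold ContDiff ComplexConjugate Topology
open Set Filter

namespace Pool.Agent.Helper54.PH

variable {E : Type} [NormedAddCommGroup E] [NormedSpace ℂ E]
variable {M : Type} [TopologicalSpace M] [ChartedSpace E M]

/-- The derivative of a map from the model space `E` to `M`, as a linear map of `E`. -/
noncomputable def qD (f : E → M) (z : E) : E →L[ℂ] E :=
  mfderiv 𝓘(ℂ, E) 𝓘(ℂ, E) f z

/-- The derivative of a self map of `M`, as a linear map of `E`. -/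
noncomputable def fD (E : Type) [NormedAddCommGroup E] [NormedSpace ℂ E] {M : Type}
    [TopologicalSpace M] [ChartedSpace E M] (f : M → M) (x : M) : E →L[ℂ] E :=
  mfderiv 𝓘(ℂ, E) 𝓘(ℂ, E) f x

/-- `q` realises the complex manifold `M` as the quotient of the open set `X` by `act`. -/
structure CoverData (q : E → M) (X : Set E) {G : Type} [Group G] (act : G → E → E) : Prop where
  isOpen : IsOpen X
  act_mem : ∀ g, ∀ z ∈ X, act g z ∈ X
  act_one : ∀ z ∈ X, act 1 z = z
  act_mul : ∀ g g', ∀ z ∈ X, act (g * g') z = act g (act g' z)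
  act_smooth : ∀ g, ∀ z ∈ X, ContDiffAt ℂ ω (act g) z
  surj : ∀ m : M, ∃ z ∈ X, q z = m
  q_eq : ∀ z ∈ X, ∀ w ∈ X, q z = q w → ∃ g, w = act g z
  q_act : ∀ g, ∀ z ∈ X, q (act g z) = q z
  atlas_spec : ∀ φ ∈ atlas E M, φ.target ⊆ X ∧ ∀ z ∈ φ.target, φ.symm z = q z

namespace CoverData

variable {q : E → M} {X : Set E} {G : Type} [Group G] {act : G → E → E}
  (C : CoverData q X act)
include C

theorem chart_near {z : E} (hz : z ∈ X) {φ : OpenPartialHomeomorph M E} (hφ : φ ∈ atlas E M)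
    (hs : q z ∈ φ.source) :
    ∃ g, φ (q z) = act g z ∧ (∀ᶠ z' in 𝓝 z, q z' ∈ φ.source ∧ φ (q z') = act g z') := by
  obtain ⟨h1, h2⟩ := C.atlas_spec φ hφ
  have hw : φ (q z) ∈ φ.target := φ.map_source hs
  have h3 : q (φ (q z)) = q z := by rw [← h2 _ hw, φ.left_inv hs]
  obtain ⟨g, hg⟩ := C.q_eq z hz (φ (q z)) (h1 hw) h3.symm
  refine ⟨g, hg, ?_⟩
  have hcont : ContinuousAt (act g) z := (C.act_smooth g z hz).continuousAt
  have h4 : ∀ᶠ z' in 𝓝 z, act g z' ∈ φ.target := by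
    apply hcont.eventually_mem
    apply φ.open_target.mem_nhds
    rw [← hg]; exact hw
  filter_upwards [h4, C.isOpen.mem_nhds hz] with z' h5 h6
  have h7 : q z' = φ.symm (act g z') := by rw [h2 _ h5, C.q_act g z' h6]
  rw [h7]
  exact ⟨φ.map_target h5, φ.right_inv h5⟩

theorem symm_eventuallyEq {φ : OpenPartialHomeomorph M E} (hφ : φ ∈ atlas E M) {z : E}
    (hz : z ∈ φ.target) : (φ.symm : E → M) =ᶠ[𝓝 z] q := by
  filter_upwards [φ.open_target.mem_nhds hz] with z' h
  exact (C.atlas_spec φ hφ).2 z' h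

theorem continuousAt_q {z : E} (hz : z ∈ X) : ContinuousAt q z := by
  obtain ⟨g, hg, h⟩ := C.chart_near hz (chart_mem_atlas E (q z)) (mem_chart_source E (q z))
  set φ := chartAt E (q z)
  have h1 : ContinuousAt (act g) z := (C.act_smooth g z hz).continuousAt
  have hw : act g z ∈ φ.target := by
    rw [← hg]; exact φ.map_source (mem_chart_source E (q z))
  have h2 : ContinuousAt (fun z' => φ.symm (act g z')) z :=
    ContinuousAt.comp (φ.continuousAt_symm hw) h1
  refine h2.congr ?_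
  filter_upwards [h] with z' h3
  rw [← h3.2, φ.left_inv h3.1]

theorem isManifold : IsManifold 𝓘(ℂ, E) ω M := by
  apply isManifold_of_contDiffOn
  intro e e' he he'
  simp only [mfld_simps]
  intro z hz
  have hz1 : z ∈ e.target := hz.1
  have hz2 : e.symm z ∈ e'.source := hz.2
  have hzX : z ∈ X := (C.atlas_spec e he).1 hz1
  have hq : e.symm z = q z := (C.atlas_spec e he).2 z hz1
  rw [hq] at hz2
  obtain ⟨g, hg, h⟩ := C.chart_near hzX he' hz2
  have h1 : (fun z' => e' (e.symm z')) =ᶠ[𝓝 z] act g := by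
    filter_upwards [h, C.symm_eventuallyEq he hz1] with z' h3 h4
    rw [h4, h3.2]
  exact ((C.act_smooth g z hzX).congr_of_eventuallyEq h1).contDiffWithinAt

theorem contMDiffAt_q {z : E} (hz : z ∈ X) : ContMDiffAt 𝓘(ℂ, E) 𝓘(ℂ, E) ω q z := by
  obtain ⟨g, hg, h⟩ := C.chart_near hz (chart_mem_atlas E (q z)) (mem_chart_source E (q z))
  rw [contMDiffAt_iff_target]
  refine ⟨C.continuousAt_q hz, ?_⟩
  rw [contMDiffAt_iff_contDiffAt]
  refine (C.act_smooth g z hz).congr_of_eventuallyEq ?_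
  filter_upwards [h] with z' h3
  simp only [mfld_simps]
  exact h3.2

/-- The lift of a point given by the preferred chart. -/
theorem lift_mem (m : M) : chartAt E m m ∈ X :=
  (C.atlas_spec _ (chart_mem_atlas E m)).1 ((chartAt E m).map_source (mem_chart_source E m))

theorem q_lift (m : M) : q (chartAt E m m) = m := by
  have h := (C.atlas_spec _ (chart_mem_atlas E m)).2 _
    ((chartAt E m).map_source (mem_chart_source E m))
  rw [← h, (chartAt E m).left_inv (mem_chart_source E m)]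

theorem mdifferentiableAt_q {z : E} (hz : z ∈ X) : MDifferentiableAt 𝓘(ℂ, E) 𝓘(ℂ, E) q z :=
  (C.contMDiffAt_q hz).mdifferentiableAt (by simp)

theorem mfderiv_q {z : E} (hz : z ∈ X) :
    ∃ g, chartAt E (q z) (q z) = act g z ∧ qD q z = fderiv ℂ (act g) z := by
  obtain ⟨g, hg, h⟩ := C.chart_near hz (chart_mem_atlas E (q z)) (mem_chart_source E (q z))
  refine ⟨g, hg, ?_⟩
  have h1 := C.mdifferentiableAt_q hz
  rw [qD, mfderiv, if_pos h1]
  simp only [mfld_simps, writtenInExtChartAt]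
  rw [fderivWithin_univ]
  apply Filter.EventuallyEq.fderiv_eq
  filter_upwards [h] with z' h3
  exact h3.2

theorem fderiv_act_inv (g : G) {z : E} (hz : z ∈ X) :
    (fderiv ℂ (act g⁻¹) (act g z)).comp (fderiv ℂ (act g) z) = ContinuousLinearMap.id ℂ E := by
  have h1 : DifferentiableAt ℂ (act g) z := (C.act_smooth g z hz).differentiableAt (by simp)
  have h2 : DifferentiableAt ℂ (act g⁻¹) (act g z) :=
    (C.act_smooth g⁻¹ _ (C.act_mem g z hz)).differentiableAt (by simp)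
  rw [← fderiv_comp z h2 h1]
  have h3 : (act g⁻¹ ∘ act g) =ᶠ[𝓝 z] id := by
    filter_upwards [C.isOpen.mem_nhds hz] with z' h
    simp only [Function.comp, id]
    rw [← C.act_mul g⁻¹ g z' h, inv_mul_cancel, C.act_one z' h]
  rw [h3.fderiv_eq, fderiv_id]

theorem fderiv_act_inv' (g : G) {z : E} (hz : z ∈ X) :
    (fderiv ℂ (act g) z).comp (fderiv ℂ (act g⁻¹) (act g z)) = ContinuousLinearMap.id ℂ E := by
  have h := C.fderiv_act_inv g⁻¹ (C.act_mem g z hz)
  rw [inv_inv, ← C.act_mul g⁻¹ g z hz, inv_mul_cancel, C.act_one z hz] at h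
  exact h

theorem mfderiv_q_injective {z : E} (hz : z ∈ X) : Function.Injective (qD q z) := by
  obtain ⟨g, _, hg⟩ := C.mfderiv_q hz
  rw [hg]
  intro v w h
  have h1 := C.fderiv_act_inv g hz
  have h2 := congrArg (fun L : E →L[ℂ] E => L v) h1
  have h3 := congrArg (fun L : E →L[ℂ] E => L w) h1
  simp only [ContinuousLinearMap.comp_apply, ContinuousLinearMap.id_apply] at h2 h3
  rw [← h2, ← h3, h]

theorem mfderiv_q_surjective {z : E} (hz : z ∈ X) : Function.Surjective (qD q z) := by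
  obtain ⟨g, _, hg⟩ := C.mfderiv_q hz
  rw [hg]
  intro v
  refine ⟨fderiv ℂ (act g⁻¹) (act g z) v, ?_⟩
  have h2 := congrArg (fun L : E →L[ℂ] E => L v) (C.fderiv_act_inv' g hz)
  simpa only [ContinuousLinearMap.comp_apply, ContinuousLinearMap.id_apply] using h2

/-- The inverse chart derivative is the derivative of `q`. -/
theorem invChartDeriv_eq {φ : OpenPartialHomeomorph M E}
    (hφ : φ ∈ atlas E M) {z : E} (hz : z ∈ φ.target) :
    qD φ.symm z = qD q z :=
  (C.symm_eventuallyEq hφ hz).mfderiv_eq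

end CoverData

/-! ### Descending invariant objects -/

/-- The distribution on `M` induced by a distribution on `E`. -/
noncomputable def descD (M : Type) [TopologicalSpace M] [ChartedSpace E M]
    (D : E → Submodule ℂ E) (m : M) : Submodule ℂ E :=
  D (chartAt E m m)

/-- The form on `M` induced by a form on `E`. -/
noncomputable def descH (M : Type) [TopologicalSpace M] [ChartedSpace E M] {𝕜 : Type}
    (H : E → E → E → 𝕜) (m : M) (v w : E) : 𝕜 :=
  H (chartAt E m m) v w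

/-- The map on `M` induced by a map on `E`. -/
noncomputable def descF (q : E → M) (F : E → E) (m : M) : M :=
  q (F (chartAt E m m))

namespace CoverData

variable {q : E → M} {X : Set E} {G : Type} [Group G] {act : G → E → E}
  (C : CoverData q X act)
include C

theorem descD_q {D : E → Submodule ℂ E}
    (hD : ∀ g, ∀ z ∈ X, D (act g z) = (D z).map (fderiv ℂ (act g) z : E →ₗ[ℂ] E)) {z : E}
    (hz : z ∈ X) :
    descD M D (q z) = (D z).map (qD q z : E →ₗ[ℂ] E) := by
  obtain ⟨g, hg, hg'⟩ := C.mfderiv_q hz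
  rw [hg', descD, hg, hD g z hz]

theorem descD_comap {D : E → Submodule ℂ E}
    (hD : ∀ g, ∀ z ∈ X, D (act g z) = (D z).map (fderiv ℂ (act g) z : E →ₗ[ℂ] E))
    {φ : OpenPartialHomeomorph M E} (hφ : φ ∈ atlas E M) {z : E} (hz : z ∈ φ.target) :
    (descD M D (φ.symm z)).comap (qD φ.symm z : E →ₗ[ℂ] E) = D z := by
  have hzX : z ∈ X := (C.atlas_spec φ hφ).1 hz
  have hq : φ.symm z = q z := (C.atlas_spec φ hφ).2 z hz
  rw [C.invChartDeriv_eq hφ hz, hq, C.descD_q hD hzX]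
  exact Submodule.comap_map_eq_of_injective (C.mfderiv_q_injective hzX) (D z)

theorem descH_q {𝕜 : Type} {H : E → E → E → 𝕜}
    (hH : ∀ g, ∀ z ∈ X, ∀ v w, H (act g z) (fderiv ℂ (act g) z v) (fderiv ℂ (act g) z w) =
      H z v w) {z : E} (hz : z ∈ X) (v w : E) :
    descH M H (q z) (qD q z v) (qD q z w) = H z v w := by
  obtain ⟨g, hg, hg'⟩ := C.mfderiv_q hz
  rw [hg', descH, hg, hH g z hz]

theorem descH_chart {𝕜 : Type} {H : E → E → E → 𝕜}
    (hH : ∀ g, ∀ z ∈ X, ∀ v w, H (act g z) (fderiv ℂ (act g) z v) (fderiv ℂ (act g) z w) =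
      H z v w) {φ : OpenPartialHomeomorph M E} (hφ : φ ∈ atlas E M) {z : E} (hz : z ∈ φ.target)
      (v w : E) :
    descH M H (φ.symm z) (qD φ.symm z v) (qD φ.symm z w) = H z v w := by
  have hzX : z ∈ X := (C.atlas_spec φ hφ).1 hz
  have hq : φ.symm z = q z := (C.atlas_spec φ hφ).2 z hz
  rw [C.invChartDeriv_eq hφ hz, hq, C.descH_q hH hzX]

theorem descF_q {F : E → E} (hF : ∀ g, ∃ g', ∀ z ∈ X, F (act g z) = act g' (F z))
    (hFX : ∀ z ∈ X, F z ∈ X) {z : E} (hz : z ∈ X) : descF q F (q z) = q (F z) := by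
  obtain ⟨g, hg⟩ := C.q_eq z hz _ (C.lift_mem (q z)) (C.q_lift (q z)).symm
  obtain ⟨g', hg'⟩ := hF g
  rw [descF, hg, hg' z hz, C.q_act g' _ (hFX z hz)]

theorem descF_contMDiff {F : E → E} (hF : ∀ g, ∃ g', ∀ z ∈ X, F (act g z) = act g' (F z))
    (hFX : ∀ z ∈ X, F z ∈ X) (hFs : ∀ z ∈ X, ContDiffAt ℂ ω F z) :
    ContMDiff 𝓘(ℂ, E) 𝓘(ℂ, E) ω (descF q F : M → M) := by
  have := C.isManifold
  intro m
  have h1 : ContMDiffAt 𝓘(ℂ, E) 𝓘(ℂ, E) ω (chartAt E m) m := contMDiffAt_extChartAt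
  have h2 : ContMDiffAt 𝓘(ℂ, E) 𝓘(ℂ, E) ω F (chartAt E m m) :=
    (hFs _ (C.lift_mem m)).contMDiffAt
  have h3 : ContMDiffAt 𝓘(ℂ, E) 𝓘(ℂ, E) ω q (F (chartAt E m m)) :=
    C.contMDiffAt_q (hFX _ (C.lift_mem m))
  have h4 : ContMDiffAt 𝓘(ℂ, E) 𝓘(ℂ, E) ω (fun m' => q (F (chartAt E m m'))) m :=
    ContMDiffAt.comp m h3 (ContMDiffAt.comp m h2 h1)
  refine h4.congr_of_eventuallyEq ?_
  filter_upwards [(chartAt E m).open_source.mem_nhds (mem_chart_source E m)] with m' hm'
  have h5 : chartAt E m m' ∈ (chartAt E m).target := (chartAt E m).map_source hm'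
  have h6 : chartAt E m m' ∈ X := (C.atlas_spec _ (chart_mem_atlas E m)).1 h5
  have h7 : q (chartAt E m m') = m' := by
    rw [← (C.atlas_spec _ (chart_mem_atlas E m)).2 _ h5, (chartAt E m).left_inv hm']
  rw [← C.descF_q hF hFX h6, h7]

theorem descF_mfderiv {F : E → E} (hF : ∀ g, ∃ g', ∀ z ∈ X, F (act g z) = act g' (F z))
    (hFX : ∀ z ∈ X, F z ∈ X) (hFs : ∀ z ∈ X, ContDiffAt ℂ ω F z) {z : E} (hz : z ∈ X) :
    (fD E (descF q F : M → M) (q z)).comp (qD q z) = (qD q (F z)).comp (fderiv ℂ F z) := by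
  have h1 : MDifferentiableAt 𝓘(ℂ, E) 𝓘(ℂ, E) (descF q F : M → M) (q z) :=
    (C.descF_contMDiff hF hFX hFs (q z)).mdifferentiableAt (by simp)
  have h2 := C.mdifferentiableAt_q hz
  have h3 := C.mdifferentiableAt_q (hFX z hz)
  have h4 : MDifferentiableAt 𝓘(ℂ, E) 𝓘(ℂ, E) F z :=
    ((hFs z hz).differentiableAt (by simp)).mdifferentiableAt
  have h5 : ((descF q F : M → M) ∘ q) =ᶠ[𝓝 z] (q ∘ F) := by
    filter_upwards [C.isOpen.mem_nhds hz] with z' h
    exact C.descF_q hF hFX h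
  have h6 := mfderiv_comp z h1 h2
  have h7 := mfderiv_comp z h3 h4
  have h8 : qD ((descF q F : M → M) ∘ q) z = qD (q ∘ F) z := h5.mfderiv_eq
  have h9 : (mfderiv 𝓘(ℂ, E) 𝓘(ℂ, E) F z : E →L[ℂ] E) = fderiv ℂ F z := mfderiv_eq_fderiv
  have h10 : qD ((descF q F : M → M) ∘ q) z = (fD E (descF q F : M → M) (q z)).comp (qD q z) := h6
  have h11 : qD (q ∘ F) z = (qD q (F z)).comp (mfderiv 𝓘(ℂ, E) 𝓘(ℂ, E) F z : E →L[ℂ] E) := h7
  exact h10.symm.trans (h8.trans (h11.trans
    (congrArg (fun L : E →L[ℂ] E => (qD q (F z)).comp L) h9)))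

end CoverData

end Pool.Agent.Helper54.PH
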