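import Mathlib

set_option autoImplicit false

open scoped Manifold ContDiff ComplexConjugate Topology

namespace Pool.Agent.Helper54.PH

variable {E : Type} [NormedAddCommGroup E] [NormedSpace ℂ E]
variable {M : Type} [TopologicalSpace M] [ChartedSpace E M]

/-- The derivative at `z` of the inverse of a chart `φ` of the complex manifold `M`, as a
complex linear map from the model space `E` to the tangent space of `M` at `φ⁻¹ z`. -/
noncomputable def invChartDeriv (φ : OpenPartialHomeomorph M E) (z : E) :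
    E →L[ℂ] TangentSpace 𝓘(ℂ, E) (φ.symm z) :=
  mfderiv 𝓘(ℂ, E) 𝓘(ℂ, E) φ.symm z

/-- `g` is a smooth Riemannian metric on the real manifold underlying the complex manifold `M`:
a family of real inner products on the tangent spaces whose coefficients in every chart of the
atlas are smooth. -/
structure IsRiemannianMetric
    (g : ∀ x : M, TangentSpace 𝓘(ℂ, E) x → TangentSpace 𝓘(ℂ, E) x → ℝ) : Prop where
  add_left : ∀ x u v w, g x (u + v) w = g x u w + g x v w
  smul_left : ∀ x (r : ℝ) v w, g x ((r : ℂ) • v) w = r * g x v w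
  symm : ∀ x v w, g x v w = g x w v
  pos : ∀ x v, v ≠ 0 → 0 < g x v v
  smooth : ∀ φ ∈ atlas E M, ∀ v w : E, ContDiffOn ℝ ∞
    (fun z => g (φ.symm z) (invChartDeriv φ z v) (invChartDeriv φ z w)) φ.target

/-- `h` is a Kaehler metric on the complex manifold `M`: a family of positive definite Hermitian
forms on the tangent spaces (complex linear in the first variable, conjugate symmetric), whose
coefficients in every chart of the atlas are smooth, and whose imaginary part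
`ω(v, w) = Im h(v, w)` is a closed real 2-form, i.e. in every chart
`(D_u ω)(v, w) + (D_v ω)(w, u) + (D_w ω)(u, v) = 0` for all constant vector fields
`u`, `v`, `w`. -/
structure IsKaehlerMetric
    (h : ∀ x : M, TangentSpace 𝓘(ℂ, E) x → TangentSpace 𝓘(ℂ, E) x → ℂ) : Prop where
  add_left : ∀ x u v w, h x (u + v) w = h x u w + h x v w
  smul_left : ∀ x (c : ℂ) v w, h x (c • v) w = c * h x v w
  conj_symm : ∀ x v w, h x w v = conj (h x v w)
  pos : ∀ x v, v ≠ 0 → 0 < (h x v v).re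
  smooth : ∀ φ ∈ atlas E M, ∀ v w : E, ContDiffOn ℝ ∞
    (fun z => h (φ.symm z) (invChartDeriv φ z v) (invChartDeriv φ z w)) φ.target
  closed : ∀ φ ∈ atlas E M, ∀ z ∈ φ.target, ∀ u v w : E,
    fderiv ℝ (fun z => (h (φ.symm z) (invChartDeriv φ z v) (invChartDeriv φ z w)).im) z u
      + fderiv ℝ (fun z => (h (φ.symm z) (invChartDeriv φ z w) (invChartDeriv φ z u)).im) z v
      + fderiv ℝ (fun z => (h (φ.symm z) (invChartDeriv φ z u) (invChartDeriv φ z v)).im) z w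
      = 0

/-- The distribution `D`, a choice of a complex linear subspace of every tangent space of `M`, is
a continuous complex subbundle: in every chart it has, near every point, a frame of continuous
vector fields. -/
def IsContinuousSubbundle (D : ∀ x : M, Submodule ℂ (TangentSpace 𝓘(ℂ, E) x)) : Prop :=
  ∀ φ ∈ atlas E M, ∀ z₀ ∈ φ.target, ∃ U ∈ 𝓝 z₀, ∃ (k : ℕ) (X : Fin k → E → E),
    (∀ i, ContinuousOn (X i) U) ∧ ∀ z ∈ U, LinearIndependent ℂ (fun i => X i z) ∧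
      (D (φ.symm z)).comap (invChartDeriv φ z : E →ₗ[ℂ] TangentSpace 𝓘(ℂ, E) (φ.symm z)) =
        Submodule.span ℂ (Set.range fun i => X i z)

/-- The distribution `D` on the complex manifold `M` is holomorphic: in every chart it is, near
every point, spanned by holomorphic vector fields. -/
def IsHolomorphicDistribution (D : ∀ x : M, Submodule ℂ (TangentSpace 𝓘(ℂ, E) x)) : Prop :=
  ∀ φ ∈ atlas E M, ∀ z₀ ∈ φ.target, ∃ U ∈ 𝓝 z₀, ∃ (k : ℕ) (X : Fin k → E → E),
    (∀ i, DifferentiableOn ℂ (X i) U) ∧ ∀ z ∈ U,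
      (D (φ.symm z)).comap (invChartDeriv φ z : E →ₗ[ℂ] TangentSpace 𝓘(ℂ, E) (φ.symm z)) =
        Submodule.span ℂ (Set.range fun i => X i z)

/-- `TM = Es ⊕ Ec ⊕ Eu` is a partially hyperbolic splitting for `f : M → M`. -/
structure IsPartiallyHyperbolicSplitting (f : M → M)
    (Es Ec Eu : ∀ x : M, Submodule ℂ (TangentSpace 𝓘(ℂ, E) x)) : Prop where
  continuous : IsContinuousSubbundle Es ∧ IsContinuousSubbundle Ec ∧ IsContinuousSubbundle Eu
  ne_bot : ∀ x, Es x ≠ ⊥ ∧ Ec x ≠ ⊥ ∧ Eu x ≠ ⊥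
  splitting : ∀ (x : M) (v : TangentSpace 𝓘(ℂ, E) x),
    ∃! p : Es x × Ec x × Eu x, v = p.1 + p.2.1 + p.2.2
  invariant : ∀ x : M,
    (Es x).map (mfderiv 𝓘(ℂ, E) 𝓘(ℂ, E) f x : TangentSpace 𝓘(ℂ, E) x →ₗ[ℂ] _) = Es (f x) ∧
    (Ec x).map (mfderiv 𝓘(ℂ, E) 𝓘(ℂ, E) f x : TangentSpace 𝓘(ℂ, E) x →ₗ[ℂ] _) = Ec (f x) ∧
    (Eu x).map (mfderiv 𝓘(ℂ, E) 𝓘(ℂ, E) f x : TangentSpace 𝓘(ℂ, E) x →ₗ[ℂ] _) = Eu (f x)
  hyperbolic : ∃ g : ∀ x : M, TangentSpace 𝓘(ℂ, E) x → TangentSpace 𝓘(ℂ, E) x → ℝ,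
    IsRiemannianMetric g ∧ ∃ N : ℕ, 1 ≤ N ∧ ∀ x : M, ∀ vs ∈ Es x, ∀ vc ∈ Ec x, ∀ vu ∈ Eu x,
      g x vs vs = 1 → g x vc vc = 1 → g x vu vu = 1 →
      let T := mfderiv 𝓘(ℂ, E) 𝓘(ℂ, E) f^[N] x
      √(g (f^[N] x) (T vs) (T vs)) < min 1 (√(g (f^[N] x) (T vc) (T vc))) ∧
      √(g (f^[N] x) (T vu) (T vu)) > max 1 (√(g (f^[N] x) (T vc) (T vc)))

end Pool.Agent.Helper54.PH
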