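import Pool.Agent.Helper54.PH.Metric
import Pool.Agent.Helper54.PH.Compact

set_option autoImplicit false

open scoped Manifold ContDiff ComplexConjugate Topology
open Set

namespace Pool.Agent.Helper54.PH

open QO

/-! ### The three invariant line fields -/

/-- The horizontal vector. -/
noncomputable def hvec (v : V) : V := (1, (p1 v : ℂ), (p2 v : ℂ))

noncomputable def Dc (v : V) : Submodule ℂ V := Submodule.span ℂ {hvec v}
noncomputable def Du (_ : V) : Submodule ℂ V := Submodule.span ℂ {((0, 1, 0) : V)}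
noncomputable def Ds (_ : V) : Submodule ℂ V := Submodule.span ℂ {((0, 0, 1) : V)}

theorem map_span_one (L : V →L[ℂ] V) (x y : V) (c : ℂ) (hc : c ≠ 0) (h : L x = c • y) :
    (Submodule.span ℂ {x}).map (L : V →ₗ[ℂ] V) = Submodule.span ℂ {y} := by
  rw [Submodule.map_span, Set.image_singleton]
  have : (L : V →ₗ[ℂ] V) x = c • y := h
  rw [this]
  exact Submodule.span_singleton_smul_eq (IsUnit.mk0 c hc) y

theorem Dc_act (g : Gp) (v : V) (hv : v ∈ XX) :
    Dc (act g v) = (Dc v).map (fderiv ℂ (act g) v : V →ₗ[ℂ] V) := by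
  have hj : jj g v.1 ≠ 0 := jj_ne g hv
  symm
  apply map_span_one _ _ _ (1 / (jj g v.1) ^ 2) (div_ne_zero one_ne_zero (pow_ne_zero 2 hj))
  rw [fderiv_act g hv]
  simp only [hvec]
  rw [p1_act g hv, p2_act g hv]
  refine Prod.ext ?_ (Prod.ext ?_ ?_)
  · simp
  · simp only [Prod.smul_mk, smul_eq_mul]
    field_simp
  · simp only [Prod.smul_mk, smul_eq_mul]
    field_simp

theorem Du_act (g : Gp) (v : V) (hv : v ∈ XX) :
    Du (act g v) = (Du v).map (fderiv ℂ (act g) v : V →ₗ[ℂ] V) := by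
  have hj : jj g v.1 ≠ 0 := jj_ne g hv
  symm
  apply map_span_one _ _ _ (1 / (jj g v.1)) (div_ne_zero one_ne_zero hj)
  rw [fderiv_act g hv]
  refine Prod.ext ?_ (Prod.ext ?_ ?_)
  · simp
  · simp only [Prod.smul_mk, smul_eq_mul]
    field_simp
    ring
  · simp

theorem Ds_act (g : Gp) (v : V) (hv : v ∈ XX) :
    Ds (act g v) = (Ds v).map (fderiv ℂ (act g) v : V →ₗ[ℂ] V) := by
  have hj : jj g v.1 ≠ 0 := jj_ne g hv
  symm
  apply map_span_one _ _ _ (1 / (jj g v.1)) (div_ne_zero one_ne_zero hj)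
  rw [fderiv_act g hv]
  refine Prod.ext ?_ (Prod.ext ?_ ?_)
  · simp
  · simp
  · simp only [Prod.smul_mk, smul_eq_mul]
    field_simp
    ring

/-! ### The fibrewise automorphism -/

/-- The expansion factor `2 + √3`. -/
noncomputable def lam : ℝ := 2 + √3
/-- The contraction factor `2 - √3`. -/
noncomputable def mu : ℝ := 2 - √3

theorem lam_mul_mu : lam * mu = 1 := by
  have h := sq3
  unfold lam mu
  linear_combination -h

theorem one_lt_lam : 1 < lam := by
  have := s3_pos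
  unfold lam; linarith

theorem mu_pos : 0 < mu := by
  have h1 := lam_mul_mu
  have h2 := one_lt_lam
  by_contra hcon
  push Not at hcon
  nlinarith

theorem mu_lt_one : mu < 1 := by
  have h1 := lam_mul_mu
  have h2 := one_lt_lam
  have h3 := mu_pos
  nlinarith

/-- The lift of the automorphism: multiplication by the unit with eigenvalues `a` and `b` on the
fibres. -/
noncomputable def FF (a b : ℝ) : V →L[ℂ] V :=
  (ContinuousLinearMap.fst ℂ ℂ (ℂ × ℂ)).prod
    (((a : ℂ) • ((ContinuousLinearMap.fst ℂ ℂ ℂ).comp (ContinuousLinearMap.snd ℂ ℂ (ℂ × ℂ)))).prod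
      ((b : ℂ) • ((ContinuousLinearMap.snd ℂ ℂ ℂ).comp (ContinuousLinearMap.snd ℂ ℂ (ℂ × ℂ)))))

theorem FF_apply (a b : ℝ) (v : V) : FF a b v = (v.1, (a : ℂ) * v.2.1, (b : ℂ) * v.2.2) := rfl

theorem FF_mem (a b : ℝ) {v : V} (hv : v ∈ XX) : FF a b v ∈ XX := hv

theorem FF_smooth (a b : ℝ) (v : V) : ContDiffAt ℂ ω (FF a b) v :=
  (FF a b).contDiff.contDiffAt

/-- The unit `2 + j`. -/
def uu : QO := ⟨2, 0, 1, 0⟩
def uu' : QO := ⟨2, 0, -1, 0⟩

theorem FF_equivariant (u : QO) (hB : B u = 0) (hC : C u = 0) (g : Gp) :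
    ∃ g' : Gp, ∀ v ∈ XX, FF (A u) (D u) (act g v) = act g' (FF (A u) (D u) v) := by
  refine ⟨⟨u * g.m, g.c, g.norm_c, g.cong⟩, ?_⟩
  intro v hv
  have hj : jj g v.1 ≠ 0 := jj_ne g hv
  rw [FF_apply, FF_apply]
  unfold act
  have hjj : ∀ t, jj ⟨u * g.m, g.c, g.norm_c, g.cong⟩ t = jj g t := fun t => rfl
  simp only [hjj, A_mul, B_mul, C_mul, D_mul, hB, hC]
  refine Prod.ext rfl (Prod.ext ?_ ?_)
  · simp only
    push_cast
    ring
  · simp only
    push_cast
    ring

theorem uu_A : A uu = lam := by simp [A, uu, lam]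
theorem uu_B : B uu = 0 := by simp [B, uu]
theorem uu_C : C uu = 0 := by simp [C, uu]
theorem uu_D : D uu = mu := by simp [D, uu, mu]
theorem uu'_A : A uu' = mu := by simp [A, uu', mu]; ring
theorem uu'_B : B uu' = 0 := by simp [B, uu']
theorem uu'_C : C uu' = 0 := by simp [C, uu']
theorem uu'_D : D uu' = lam := by simp [D, uu', lam]

theorem F_equi (g : Gp) : ∃ g' : Gp, ∀ v ∈ XX, FF lam mu (act g v) = act g' (FF lam mu v) := by
  have h := FF_equivariant uu uu_B uu_C g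
  rwa [uu_A, uu_D] at h

theorem F'_equi (g : Gp) : ∃ g' : Gp, ∀ v ∈ XX, FF mu lam (act g v) = act g' (FF mu lam v) := by
  have h := FF_equivariant uu' uu'_B uu'_C g
  rwa [uu'_A, uu'_D] at h

theorem FF_inv (v : V) : FF mu lam (FF lam mu v) = v := by
  have h : (mu : ℂ) * (lam : ℂ) = 1 := by exact_mod_cast (mul_comm mu lam).trans lam_mul_mu
  have h' : (lam : ℂ) * (mu : ℂ) = 1 := by exact_mod_cast lam_mul_mu
  rw [FF_apply, FF_apply]
  refine Prod.ext rfl (Prod.ext ?_ ?_)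
  · simp only; rw [← mul_assoc, h, one_mul]
  · simp only; rw [← mul_assoc, h', one_mul]

theorem FF_inv' (v : V) : FF lam mu (FF mu lam v) = v := by
  have h : (mu : ℂ) * (lam : ℂ) = 1 := by exact_mod_cast (mul_comm mu lam).trans lam_mul_mu
  have h' : (lam : ℂ) * (mu : ℂ) = 1 := by exact_mod_cast lam_mul_mu
  rw [FF_apply, FF_apply]
  refine Prod.ext rfl (Prod.ext ?_ ?_)
  · simp only; rw [← mul_assoc, h', one_mul]
  · simp only; rw [← mul_assoc, h, one_mul]

/-! ### The map on the manifold -/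

noncomputable def ffE : MM ≃ MM where
  toFun := descF qq (FF lam mu)
  invFun := descF qq (FF mu lam)
  left_inv m := by
    obtain ⟨z, hz, rfl⟩ := coverData.surj m
    rw [coverData.descF_q F_equi (fun v hv => FF_mem _ _ hv) hz,
      coverData.descF_q F'_equi (fun v hv => FF_mem _ _ hv) (FF_mem _ _ hz), FF_inv]
  right_inv m := by
    obtain ⟨z, hz, rfl⟩ := coverData.surj m
    rw [coverData.descF_q F'_equi (fun v hv => FF_mem _ _ hv) hz,
      coverData.descF_q F_equi (fun v hv => FF_mem _ _ hv) (FF_mem _ _ hz), FF_inv']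

/-- The holomorphic diffeomorphism. -/
noncomputable def ff : MM ≃ₘ^ω⟮𝓘(ℂ, V), 𝓘(ℂ, V)⟯ MM where
  toEquiv := ffE
  contMDiff_toFun := coverData.descF_contMDiff F_equi (fun v hv => FF_mem _ _ hv)
    (fun v _ => FF_smooth _ _ v)
  contMDiff_invFun := coverData.descF_contMDiff F'_equi (fun v hv => FF_mem _ _ hv)
    (fun v _ => FF_smooth _ _ v)

theorem ff_qq {z : V} (hz : z ∈ XX) : ff (qq z) = qq (FF lam mu z) :=
  coverData.descF_q F_equi (fun v hv => FF_mem _ _ hv) hz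

theorem ff_deriv {z : V} (hz : z ∈ XX) :
    (fD V (ff : MM → MM) (qq z)).comp (qD qq z) = (qD qq (FF lam mu z)).comp (FF lam mu) := by
  have h := coverData.descF_mfderiv F_equi (fun v hv => FF_mem _ _ hv)
    (fun v _ => FF_smooth _ _ v) hz
  rw [ContinuousLinearMap.fderiv] at h
  exact h

/-! ### Invariance -/

theorem Dc_F (v : V) : (Dc v).map (FF lam mu : V →ₗ[ℂ] V) = Dc (FF lam mu v) := by
  apply map_span_one _ _ _ 1 one_ne_zero
  rw [one_smul, FF_apply, hvec, hvec, p1, p2, p1, p2, FF_apply]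
  refine Prod.ext rfl (Prod.ext ?_ ?_)
  · simp only [Complex.im_ofReal_mul]; push_cast; ring
  · simp only [Complex.im_ofReal_mul]; push_cast; ring

theorem Du_F (v : V) : (Du v).map (FF lam mu : V →ₗ[ℂ] V) = Du (FF lam mu v) := by
  have : (lam : ℂ) ≠ 0 := by
    have := one_lt_lam
    exact_mod_cast (by linarith : lam ≠ 0)
  apply map_span_one _ _ _ (lam : ℂ) this
  rw [FF_apply]; simp

theorem Ds_F (v : V) : (Ds v).map (FF lam mu : V →ₗ[ℂ] V) = Ds (FF lam mu v) := by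
  have : (mu : ℂ) ≠ 0 := by
    have := mu_pos
    exact_mod_cast this.ne'
  apply map_span_one _ _ _ (mu : ℂ) this
  rw [FF_apply]; simp

theorem desc_invariant {D : V → Submodule ℂ V}
    (hD : ∀ g, ∀ z ∈ XX, D (act g z) = (D z).map (fderiv ℂ (act g) z : V →ₗ[ℂ] V))
    (hF : ∀ z, (D z).map (FF lam mu : V →ₗ[ℂ] V) = D (FF lam mu z)) (m : MM) :
    (descD MM D m).map (fD V (ff : MM → MM) m : V →ₗ[ℂ] V) = descD MM D (ff m) := by
  obtain ⟨z, hz, rfl⟩ := coverData.surj m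
  rw [coverData.descD_q hD hz, ff_qq hz, coverData.descD_q hD (FF_mem _ _ hz), ← hF z]
  have h := ff_deriv hz
  have h' : ((fD V (ff : MM → MM) (qq z) : V →L[ℂ] V) : V →ₗ[ℂ] V).comp
      ((qD qq z : V →L[ℂ] V) : V →ₗ[ℂ] V) =
      ((qD qq (FF lam mu z) : V →L[ℂ] V) : V →ₗ[ℂ] V).comp ((FF lam mu : V →L[ℂ] V) : V →ₗ[ℂ] V) := by
    have := congrArg (fun L : V →L[ℂ] V => (L : V →ₗ[ℂ] V)) h
    simpa using this
  rw [← Submodule.map_comp, ← Submodule.map_comp, h']

/-! ### Growth -/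

/-- The Riemannian metric. -/
noncomputable def RR (v w w' : V) : ℝ := (HH v w w').re

theorem RR_act (g : Gp) (v : V) (hv : v ∈ XX) (w w' : V) :
    RR (act g v) (fderiv ℂ (act g) v w) (fderiv ℂ (act g) v w') = RR v w w' := by
  rw [RR, HH_act g v hv, RR]

theorem mem_Dc {v w : V} : w ∈ Dc v ↔ ∃ c : ℂ, c • hvec v = w := Submodule.mem_span_singleton

theorem RR_c {v : V} (w : V) (hw : w ∈ Dc v) :
    RR (FF lam mu v) (FF lam mu w) (FF lam mu w) = RR v w w := by
  obtain ⟨c, rfl⟩ := mem_Dc.mp hw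
  have h1 : e1 v (c • hvec v) = 0 := by simp [e1, hvec]; ring
  have h2 : e2 v (c • hvec v) = 0 := by simp [e2, hvec]; ring
  have h3 : e1 (FF lam mu v) (FF lam mu (c • hvec v)) = 0 := by
    simp [e1, hvec, FF_apply, p1]; ring
  have h4 : e2 (FF lam mu v) (FF lam mu (c • hvec v)) = 0 := by
    simp [e2, hvec, FF_apply, p2]; ring
  rw [RR, RR, HH_self, HH_self, h1, h2, h3, h4]
  rfl

theorem RR_u {v : V} (w : V) (hw : w ∈ Du v) :
    RR (FF lam mu v) (FF lam mu w) (FF lam mu w) = lam ^ 2 * RR v w w := by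
  obtain ⟨c, rfl⟩ := Submodule.mem_span_singleton.mp hw
  have h1 : e1 v (c • ((0, 1, 0) : V)) = c := by simp [e1]
  have h2 : e2 v (c • ((0, 1, 0) : V)) = 0 := by simp [e2]
  have h3 : e1 (FF lam mu v) (FF lam mu (c • ((0, 1, 0) : V))) = lam * c := by
    simp [e1, FF_apply]
  have h4 : e2 (FF lam mu v) (FF lam mu (c • ((0, 1, 0) : V))) = 0 := by
    simp [e2, FF_apply]
  have h5 : (c • ((0, 1, 0) : V)).1 = 0 := by simp
  have h6 : (FF lam mu (c • ((0, 1, 0) : V))).1 = 0 := by simp [FF_apply]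
  have h7 : (FF lam mu v).1 = v.1 := rfl
  rw [RR, RR, HH_self, HH_self, h1, h2, h3, h4, h5, h6, h7]
  simp only [Complex.ofReal_re, map_zero, map_mul, Complex.normSq_ofReal]
  ring

theorem RR_s {v : V} (w : V) (hw : w ∈ Ds v) :
    RR (FF lam mu v) (FF lam mu w) (FF lam mu w) = mu ^ 2 * RR v w w := by
  obtain ⟨c, rfl⟩ := Submodule.mem_span_singleton.mp hw
  have h1 : e1 v (c • ((0, 0, 1) : V)) = 0 := by simp [e1]
  have h2 : e2 v (c • ((0, 0, 1) : V)) = c := by simp [e2]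
  have h3 : e1 (FF lam mu v) (FF lam mu (c • ((0, 0, 1) : V))) = 0 := by
    simp [e1, FF_apply]
  have h4 : e2 (FF lam mu v) (FF lam mu (c • ((0, 0, 1) : V))) = mu * c := by
    simp [e2, FF_apply]
  have h5 : (c • ((0, 0, 1) : V)).1 = 0 := by simp
  have h6 : (FF lam mu (c • ((0, 0, 1) : V))).1 = 0 := by simp [FF_apply]
  have h7 : (FF lam mu v).1 = v.1 := rfl
  rw [RR, RR, HH_self, HH_self, h1, h2, h3, h4, h5, h6, h7]
  simp only [Complex.ofReal_re, map_zero, map_mul, Complex.normSq_ofReal]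
  ring

/-- Growth on the manifold. -/
theorem desc_growth {D : V → Submodule ℂ V}
    (hD : ∀ g, ∀ z ∈ XX, D (act g z) = (D z).map (fderiv ℂ (act g) z : V →ₗ[ℂ] V)) (κ : ℝ)
    (hF : ∀ z w, w ∈ D z → RR (FF lam mu z) (FF lam mu w) (FF lam mu w) = κ * RR z w w) (m : MM)
    (w : V) (hw : w ∈ descD MM D m) :
    descH MM RR (ff m) (fD V (ff : MM → MM) m w) (fD V (ff : MM → MM) m w) =
      κ * descH MM RR m w w := by
  obtain ⟨z, hz, rfl⟩ := coverData.surj m
  rw [coverData.descD_q hD hz] at hw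
  obtain ⟨x, hx, rfl⟩ := hw
  have h := congrArg (fun L : V →L[ℂ] V => L x) (ff_deriv hz)
  simp only [ContinuousLinearMap.comp_apply] at h
  have h0 : ((qD qq z : V →L[ℂ] V) : V →ₗ[ℂ] V) x = qD qq z x := rfl
  rw [h0, h, ff_qq hz, coverData.descH_q RR_act (FF_mem _ _ hz), coverData.descH_q RR_act hz]
  exact hF z x hx

end Pool.Agent.Helper54.PH
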