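import Pool.Agent.Helper54.PH.Dist

set_option autoImplicit false

open scoped Manifold ContDiff ComplexConjugate Topology
open Set Filter

namespace Pool.Agent.Helper54.PH

/-! ### The Kaehler metric -/

theorem kaehler : IsKaehlerMetric (E := V) (M := MM) (descH MM HH) where
  add_left x u v w := HH_add_left _ _ _ _
  smul_left x c v w := HH_smul_left _ _ _ _
  conj_symm x v w := HH_conj _ _ _
  pos x v hv := HH_pos (coverData.lift_mem x) hv
  smooth φ hφ v w := by
    intro z hz
    have hzX : z ∈ XX := (coverData.atlas_spec φ hφ).1 hz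
    have h1 : (fun z => descH MM HH (φ.symm z) (qD φ.symm z v) (qD φ.symm z w)) =ᶠ[𝓝 z]
        fun z => HH z v w := by
      filter_upwards [φ.open_target.mem_nhds hz] with z' hz'
      exact coverData.descH_chart (fun g z hz v w => HH_act g z hz v w) hφ hz' v w
    exact ((contDiffAt_HH hzX v w).congr_of_eventuallyEq h1).contDiffWithinAt
  closed φ hφ z hz u v w := by
    have hzX : z ∈ XX := (coverData.atlas_spec φ hφ).1 hz
    have h1 : ∀ v w : V, (fun z => (descH MM HH (φ.symm z) (qD φ.symm z v) (qD φ.symm z w)).im)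
        =ᶠ[𝓝 z] fun z => (HH z v w).im := by
      intro v w
      filter_upwards [φ.open_target.mem_nhds hz] with z' hz'
      rw [coverData.descH_chart (fun g z hz v w => HH_act g z hz v w) hφ hz' v w]
    have h2 := HH_closed hzX u v w
    rw [← (h1 v w).fderiv_eq, ← (h1 w u).fderiv_eq, ← (h1 u v).fderiv_eq] at h2
    exact h2

theorem RR_add_left (v a b w : V) : RR v (a + b) w = RR v a w + RR v b w := by
  rw [RR, HH_add_left]; rfl

theorem RR_smul_left (v : V) (r : ℝ) (a w : V) : RR v ((r : ℂ) • a) w = r * RR v a w := by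
  rw [RR, HH_smul_left, Complex.re_ofReal_mul]; rfl

theorem RR_symm (v a b : V) : RR v a b = RR v b a := by
  rw [RR, HH_conj v b a, Complex.conj_re, RR]

theorem riemannian : IsRiemannianMetric (E := V) (M := MM) (descH MM RR) where
  add_left x u v w := RR_add_left _ _ _ _
  smul_left x r v w := RR_smul_left _ _ _ _
  symm x v w := RR_symm _ _ _
  pos x v hv := HH_pos (coverData.lift_mem x) hv
  smooth φ hφ v w := by
    intro z hz
    have hzX : z ∈ XX := (coverData.atlas_spec φ hφ).1 hz
    have h1 : (fun z => descH MM RR (φ.symm z) (qD φ.symm z v) (qD φ.symm z w)) =ᶠ[𝓝 z]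
        fun z => (HH z v w).re := by
      filter_upwards [φ.open_target.mem_nhds hz] with z' hz'
      exact coverData.descH_chart (fun g z hz v w => RR_act g z hz v w) hφ hz' v w
    have h2 : ContDiffAt ℝ ∞ (fun z => (HH z v w).re) z :=
      Complex.reCLM.contDiff.contDiffAt.comp z (contDiffAt_HH hzX v w)
    exact (h2.congr_of_eventuallyEq h1).contDiffWithinAt

/-! ### Continuity of the line fields -/

theorem continuous_line {D : V → Submodule ℂ V}
    (hD : ∀ g, ∀ z ∈ XX, D (act g z) = (D z).map (fderiv ℂ (act g) z : V →ₗ[ℂ] V))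
    (ξ : V → V) (hξ : ∀ z ∈ XX, D z = Submodule.span ℂ {ξ z}) (hne : ∀ z ∈ XX, ξ z ≠ 0)
    (hc : ContinuousOn ξ XX) :
    IsContinuousSubbundle (E := V) (M := MM) (descD MM D) := by
  intro φ hφ z₀ hz₀
  refine ⟨φ.target, φ.open_target.mem_nhds hz₀, 1, fun _ => ξ, ?_, ?_⟩
  · intro _
    exact hc.mono (coverData.atlas_spec φ hφ).1
  · intro z hz
    have hzX : z ∈ XX := (coverData.atlas_spec φ hφ).1 hz
    refine ⟨?_, ?_⟩
    · rw [linearIndependent_unique_iff]
      exact hne z hzX
    · have h := coverData.descD_comap hD hφ hz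
      rw [Set.range_const, ← hξ z hzX]
      exact h

theorem hvec_continuousOn : ContinuousOn hvec XX := by
  intro z hz
  have h1 : ContinuousAt (fun v : V => ((p1 v : ℝ) : ℂ)) z :=
    (ofReal_contDiffAt (contDiffAt_p1 hz)).continuousAt
  have h2 : ContinuousAt (fun v : V => ((p2 v : ℝ) : ℂ)) z :=
    (ofReal_contDiffAt (contDiffAt_p2 hz)).continuousAt
  exact (continuousAt_const.prodMk (h1.prodMk h2)).continuousWithinAt

theorem hvec_ne (v : V) : hvec v ≠ 0 := by
  intro h
  have := congrArg Prod.fst h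
  simp [hvec] at this

theorem u_ne : ((0, 1, 0) : V) ≠ 0 := by
  intro h
  have := congrArg (fun v : V => v.2.1) h
  simp at this

theorem s_ne : ((0, 0, 1) : V) ≠ 0 := by
  intro h
  have := congrArg (fun v : V => v.2.2) h
  simp at this

theorem splitting_aux (z v : V) :
    ∃! p : Ds z × Dc z × Du z, v = p.1 + p.2.1 + p.2.2 := by
  have mc : v.1 • hvec z ∈ Dc z := Submodule.smul_mem _ _ (Submodule.mem_span_singleton_self _)
  have mu : e1 z v • ((0, 1, 0) : V) ∈ Du z :=
    Submodule.smul_mem _ _ (Submodule.mem_span_singleton_self _)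
  have ms : e2 z v • ((0, 0, 1) : V) ∈ Ds z :=
    Submodule.smul_mem _ _ (Submodule.mem_span_singleton_self _)
  refine ⟨(⟨_, ms⟩, ⟨_, mc⟩, ⟨_, mu⟩), ?_, ?_⟩
  · simp only
    refine Prod.ext ?_ (Prod.ext ?_ ?_)
    · simp [hvec]
    · simp [hvec, e1]; ring
    · simp [hvec, e2]; ring
  · rintro ⟨⟨a, ha⟩, ⟨b, hb⟩, ⟨c, hc⟩⟩ h
    obtain ⟨a', rfl⟩ := Submodule.mem_span_singleton.mp ha
    obtain ⟨b', rfl⟩ := Submodule.mem_span_singleton.mp hb
    obtain ⟨c', rfl⟩ := Submodule.mem_span_singleton.mp hc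
    simp only at h
    have h1 : v.1 = b' := by
      have := congrArg Prod.fst h
      simpa [hvec] using this
    have h2 : v.2.1 = b' * (p1 z : ℂ) + c' := by
      have := congrArg (fun v : V => v.2.1) h
      simpa [hvec] using this
    have h3 : v.2.2 = a' + b' * (p2 z : ℂ) := by
      have := congrArg (fun v : V => v.2.2) h
      simpa [hvec] using this
    have e1' : e1 z v = c' := by rw [e1, h2, h1]; ring
    have e2' : e2 z v = a' := by rw [e2, h3, h1]; ring
    refine Prod.ext (Subtype.ext ?_) (Prod.ext (Subtype.ext ?_) (Subtype.ext ?_))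
    · simp only; rw [e2']
    · simp only; rw [h1]
    · simp only; rw [e1']

theorem partially_hyperbolic :
    IsPartiallyHyperbolicSplitting (E := V) (M := MM) (ff : MM → MM)
      (descD MM Ds) (descD MM Dc) (descD MM Du) where
  continuous := ⟨continuous_line Ds_act (fun _ => (0, 0, 1)) (fun _ _ => rfl) (fun _ _ => s_ne)
      continuousOn_const,
    continuous_line Dc_act hvec (fun _ _ => rfl) (fun z _ => hvec_ne z) hvec_continuousOn,
    continuous_line Du_act (fun _ => (0, 1, 0)) (fun _ _ => rfl) (fun _ _ => u_ne)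
      continuousOn_const⟩
  ne_bot x := by
    refine ⟨?_, ?_, ?_⟩
    · intro h
      exact s_ne ((Submodule.span_singleton_eq_bot (R := ℂ)).mp h)
    · intro h
      exact hvec_ne _ ((Submodule.span_singleton_eq_bot (R := ℂ)).mp h)
    · intro h
      exact u_ne ((Submodule.span_singleton_eq_bot (R := ℂ)).mp h)
  splitting x v := splitting_aux _ _
  invariant x := ⟨desc_invariant Ds_act Ds_F x, desc_invariant Dc_act Dc_F x,
    desc_invariant Du_act Du_F x⟩
  hyperbolic := by
    refine ⟨descH MM RR, riemannian, 1, le_rfl, ?_⟩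
    intro x vs hvs vc hvc vu hvu h1 h2 h3
    have k1 := desc_growth Ds_act (mu ^ 2) (fun z w hw => RR_s w hw) x vs hvs
    have k2 := desc_growth Dc_act 1 (fun z w hw => by rw [RR_c w hw, one_mul]) x vc hvc
    have k3 := desc_growth Du_act (lam ^ 2) (fun z w hw => RR_u w hw) x vu hvu
    rw [show descH MM RR x vs vs = 1 from h1, mul_one] at k1
    rw [show descH MM RR x vc vc = 1 from h2, mul_one] at k2
    rw [show descH MM RR x vu vu = 1 from h3, mul_one] at k3
    have q1 : √(descH MM RR (ff x) (fD V (ff : MM → MM) x vs) (fD V (ff : MM → MM) x vs)) = mu := by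
      rw [k1]; exact Real.sqrt_sq mu_pos.le
    have q2 : √(descH MM RR (ff x) (fD V (ff : MM → MM) x vc) (fD V (ff : MM → MM) x vc)) = 1 := by
      rw [k2]; exact Real.sqrt_one
    have q3 : √(descH MM RR (ff x) (fD V (ff : MM → MM) x vu) (fD V (ff : MM → MM) x vu)) = lam := by
      rw [k3]; exact Real.sqrt_sq (by linarith [one_lt_lam])
    show √(descH MM RR (ff x) (fD V (ff : MM → MM) x vs) (fD V (ff : MM → MM) x vs)) <
        min 1 (√(descH MM RR (ff x) (fD V (ff : MM → MM) x vc) (fD V (ff : MM → MM) x vc))) ∧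
      √(descH MM RR (ff x) (fD V (ff : MM → MM) x vu) (fD V (ff : MM → MM) x vu)) >
        max 1 (√(descH MM RR (ff x) (fD V (ff : MM → MM) x vc) (fD V (ff : MM → MM) x vc)))
    rw [q1, q2, q3]
    simp only [min_self, max_self]
    exact ⟨mu_lt_one, one_lt_lam⟩

/-! ### The center distribution is not holomorphic -/

theorem not_differentiable_p1 {z : V} (hz : z ∈ XX) :
    ¬ DifferentiableAt ℂ (fun v : V => ((p1 v : ℝ) : ℂ)) z := by
  intro h
  have hy : z.1.im ≠ 0 := ne_of_gt hz
  have line : ∀ c : ℂ, fderiv ℂ (fun v : V => ((p1 v : ℝ) : ℂ)) z ((0, c, 0) : V) =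
      (((c.im / z.1.im) : ℝ) : ℂ) := by
    intro c
    have h1 : HasLineDerivAt ℝ (fun v : V => ((p1 v : ℝ) : ℂ))
        (fderiv ℂ (fun v : V => ((p1 v : ℝ) : ℂ)) z ((0, c, 0) : V)) z ((0, c, 0) : V) :=
      (h.hasFDerivAt.restrictScalars ℝ).hasLineDerivAt _
    refine HasLineDerivAt.unique h1 ?_
    have h2 : HasDerivAt (fun s : ℝ => (z.2.1.im + s * c.im) / z.1.im) (c.im / z.1.im) 0 := by
      have : HasDerivAt (fun s : ℝ => s * c.im) c.im 0 := by
        simpa using (hasDerivAt_id (0 : ℝ)).mul_const c.im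
      simpa using (this.const_add z.2.1.im).div_const z.1.im
    have h3 := h2.ofReal_comp
    refine h3.congr_of_eventuallyEq (Eventually.of_forall fun s => ?_)
    simp [p1]
  have l1 := line 1
  have l2 := line Complex.I
  have e : ((0, Complex.I, 0) : V) = Complex.I • ((0, 1, 0) : V) := by simp
  rw [e, map_smul, l1] at l2
  simp at l2
  exact hy (by exact_mod_cast l2.symm)

theorem not_holomorphic :
    ¬ IsHolomorphicDistribution (E := V) (M := MM) (descD MM Dc) := by
  intro h
  obtain ⟨m⟩ : Nonempty MM := ⟨qq (Complex.I, 0, 0)⟩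
  set φ := chartAt V m
  have hφ : φ ∈ atlas V MM := chart_mem_atlas V m
  set z := φ m with hz
  have hzt : z ∈ φ.target := φ.map_source (mem_chart_source V m)
  have hzX : z ∈ XX := (coverData.atlas_spec φ hφ).1 hzt
  obtain ⟨U, hU, k, ξ, hξ1, hξ2⟩ := h φ hφ z hzt
  have hspan : ∀ z' ∈ U ∩ φ.target, Dc z' = Submodule.span ℂ (Set.range fun i => ξ i z') := by
    intro z' hz'
    have h1 := coverData.descD_comap Dc_act hφ hz'.2
    rw [← h1]
    exact hξ2 z' hz'.1
  have hmem : z ∈ U ∩ φ.target := ⟨mem_of_mem_nhds hU, hzt⟩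
  -- some field does not vanish at z
  obtain ⟨i, hi⟩ : ∃ i, ξ i z ≠ 0 := by
    by_contra hcon
    push Not at hcon
    have h1 := hspan z hmem
    have h2 : Submodule.span ℂ (Set.range fun i => ξ i z) = ⊥ := by
      rw [Submodule.span_eq_bot]
      rintro _ ⟨i, rfl⟩
      exact hcon i
    rw [h2] at h1
    exact hvec_ne z ((Submodule.span_singleton_eq_bot (R := ℂ)).mp h1)
  have hform : ∀ z' ∈ U ∩ φ.target, ξ i z' = (ξ i z').1 • hvec z' := by
    intro z' hz'
    have h1 : ξ i z' ∈ Dc z' := by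
      rw [hspan z' hz']
      exact Submodule.subset_span ⟨i, rfl⟩
    obtain ⟨c, hc⟩ := mem_Dc.mp h1
    have h2 : (ξ i z').1 = c := by rw [← hc]; simp [hvec]
    rw [h2, hc]
  have hne : (ξ i z).1 ≠ 0 := by
    intro h0
    apply hi
    rw [hform z hmem, h0, zero_smul]
  have hd : DifferentiableAt ℂ (ξ i) z := (hξ1 i).differentiableAt hU
  have hd1 : DifferentiableAt ℂ (fun v => (ξ i v).1) z := hd.fst
  have hd2 : DifferentiableAt ℂ (fun v => (ξ i v).2.1) z := hd.snd.fst
  have hq : DifferentiableAt ℂ (fun v => (ξ i v).2.1 * ((ξ i v).1)⁻¹) z := hd2.mul (hd1.inv hne)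
  apply not_differentiable_p1 hzX
  refine hq.congr_of_eventuallyEq ?_
  have hnear : ∀ᶠ v in 𝓝 z, (ξ i v).1 ≠ 0 := hd1.continuousAt.eventually_ne hne
  filter_upwards [hnear, hU, φ.open_target.mem_nhds hzt] with v hv1 hv2 hv3
  have h1 := hform v ⟨hv2, hv3⟩
  have h2 : (ξ i v).2.1 = (ξ i v).1 * (p1 v : ℂ) := by
    conv_lhs => rw [h1]
    simp [hvec]
  rw [h2]
  field_simp

end Pool.Agent.Helper54.PH
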