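import Mathlib

set_option autoImplicit false

open Quaternion

namespace Pool.Agent.Helper54.PH

/-- The order `ℤ⟨i, j⟩`, `i² = -1`, `j² = 3`, `ij = -ji`, in the quaternion division algebra of
discriminant 6. -/
abbrev QO : Type := ℍ[ℤ, -1, 3]

namespace QO

theorem sq3 : √(3 : ℝ) * √(3 : ℝ) = 3 := Real.mul_self_sqrt (by norm_num)

theorem s3_pos : 0 < √(3 : ℝ) := Real.sqrt_pos.mpr (by norm_num)

/-- Matrix entries of the real splitting. -/
noncomputable def A (q : QO) : ℝ := q.re + √3 * q.imJ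
noncomputable def B (q : QO) : ℝ := q.imI - √3 * q.imK
noncomputable def C (q : QO) : ℝ := -q.imI - √3 * q.imK
noncomputable def D (q : QO) : ℝ := q.re - √3 * q.imJ

theorem A_mul (p q : QO) : A (p * q) = A p * A q + B p * C q := by
  have h := sq3
  simp only [A, B, C, QuaternionAlgebra.re_mul, QuaternionAlgebra.imJ_mul]
  push_cast
  linear_combination (-(p.imJ * q.imJ : ℝ) - (p.imK * q.imK : ℝ)) * h

theorem B_mul (p q : QO) : B (p * q) = A p * B q + B p * D q := by
  have h := sq3
  simp only [A, B, D, QuaternionAlgebra.imI_mul, QuaternionAlgebra.imK_mul]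
  push_cast
  linear_combination ((p.imJ * q.imK : ℝ) - (p.imK * q.imJ : ℝ)) * h

theorem C_mul (p q : QO) : C (p * q) = C p * A q + D p * C q := by
  have h := sq3
  simp only [A, C, D, QuaternionAlgebra.imI_mul, QuaternionAlgebra.imK_mul]
  push_cast
  linear_combination (-(p.imJ * q.imK : ℝ) + (p.imK * q.imJ : ℝ)) * h

theorem D_mul (p q : QO) : D (p * q) = C p * B q + D p * D q := by
  have h := sq3
  simp only [B, C, D, QuaternionAlgebra.re_mul, QuaternionAlgebra.imJ_mul]
  push_cast
  linear_combination (-(p.imJ * q.imJ : ℝ) - (p.imK * q.imK : ℝ)) * h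

theorem A_add (p q : QO) : A (p + q) = A p + A q := by simp [A]; ring
theorem B_add (p q : QO) : B (p + q) = B p + B q := by simp [B]; ring
theorem C_add (p q : QO) : C (p + q) = C p + C q := by simp [C]; ring
theorem D_add (p q : QO) : D (p + q) = D p + D q := by simp [D]; ring

@[simp] theorem A_one : A 1 = 1 := by simp [A]
@[simp] theorem B_one : B 1 = 0 := by simp [B]
@[simp] theorem C_one : C 1 = 0 := by simp [C]
@[simp] theorem D_one : D 1 = 1 := by simp [D]
@[simp] theorem A_zero : A 0 = 0 := by simp [A]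
@[simp] theorem B_zero : B 0 = 0 := by simp [B]
@[simp] theorem C_zero : C 0 = 0 := by simp [C]
@[simp] theorem D_zero : D 0 = 0 := by simp [D]

/-- The reduced norm. -/
def N (q : QO) : ℤ := q.re ^ 2 + q.imI ^ 2 - 3 * q.imJ ^ 2 - 3 * q.imK ^ 2

theorem det_eq (q : QO) : A q * D q - B q * C q = N q := by
  have h := sq3
  simp only [A, B, C, D, N]
  push_cast
  linear_combination (-(q.imJ ^ 2 : ℝ) - (q.imK ^ 2 : ℝ)) * h

theorem N_mul (p q : QO) : N (p * q) = N p * N q := by
  simp only [N, QuaternionAlgebra.re_mul, QuaternionAlgebra.imI_mul, QuaternionAlgebra.imJ_mul,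
    QuaternionAlgebra.imK_mul]
  ring

theorem N_one : N 1 = 1 := by simp [N]

theorem N_star (q : QO) : N (star q) = N q := by
  simp only [N, QuaternionAlgebra.re_star, QuaternionAlgebra.imI_star,
    QuaternionAlgebra.imJ_star, QuaternionAlgebra.imK_star]
  ring

theorem star_mul_self' (q : QO) : star q * q = (N q : ℤ) • (1 : QO) := by
  ext
  · simp only [QuaternionAlgebra.re_mul, QuaternionAlgebra.re_star, QuaternionAlgebra.imI_star,
      QuaternionAlgebra.imJ_star, QuaternionAlgebra.imK_star, QuaternionAlgebra.re_smul,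
      QuaternionAlgebra.re_one, smul_eq_mul, N]
    ring
  · simp only [QuaternionAlgebra.imI_mul, QuaternionAlgebra.re_star, QuaternionAlgebra.imI_star,
      QuaternionAlgebra.imJ_star, QuaternionAlgebra.imK_star, QuaternionAlgebra.imI_smul,
      QuaternionAlgebra.imI_one, smul_eq_mul]
    ring
  · simp only [QuaternionAlgebra.imJ_mul, QuaternionAlgebra.re_star, QuaternionAlgebra.imI_star,
      QuaternionAlgebra.imJ_star, QuaternionAlgebra.imK_star, QuaternionAlgebra.imJ_smul,
      QuaternionAlgebra.imJ_one, smul_eq_mul]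
    ring
  · simp only [QuaternionAlgebra.imK_mul, QuaternionAlgebra.re_star, QuaternionAlgebra.imI_star,
      QuaternionAlgebra.imJ_star, QuaternionAlgebra.imK_star, QuaternionAlgebra.imK_smul,
      QuaternionAlgebra.imK_one, smul_eq_mul]
    ring

theorem mul_star_self' (q : QO) : q * star q = (N q : ℤ) • (1 : QO) := by
  have h := star_mul_self' (star q)
  rwa [star_star, N_star] at h

theorem ext_ABCD {p q : QO} (hA : A p = A q) (hB : B p = B q) (hC : C p = C q)
    (hD : D p = D q) : p = q := by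
  have h := s3_pos
  simp only [A, B, C, D] at hA hB hC hD
  have h1 : (p.re : ℝ) = q.re := by linarith
  have h2 : (p.imI : ℝ) = q.imI := by linarith
  have h3 : (p.imJ : ℝ) = q.imJ := by
    have : √3 * (p.imJ : ℝ) = √3 * q.imJ := by linarith
    exact mul_left_cancel₀ h.ne' this
  have h4 : (p.imK : ℝ) = q.imK := by
    have : √3 * (p.imK : ℝ) = √3 * q.imK := by linarith
    exact mul_left_cancel₀ h.ne' this
  ext
  · exact_mod_cast h1
  · exact_mod_cast h2
  · exact_mod_cast h3
  · exact_mod_cast h4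

/-- The order has no nonzero element of norm zero. -/
theorem eq_zero_of_N (q : QO) (h : N q = 0) : q = 0 := by
  have key : ∀ n : ℕ, ∀ x y z w : ℤ, x.natAbs + y.natAbs + z.natAbs + w.natAbs ≤ n →
      x ^ 2 + y ^ 2 = 3 * (z ^ 2 + w ^ 2) → x = 0 ∧ y = 0 ∧ z = 0 ∧ w = 0 := by
    have mod3 : ∀ x y : ℤ, (3 : ℤ) ∣ x ^ 2 + y ^ 2 → (3 : ℤ) ∣ x ∧ (3 : ℤ) ∣ y := by
      intro x y h
      have h1 : (x ^ 2 + y ^ 2) % 3 = 0 := Int.emod_eq_zero_of_dvd h
      rcases (by omega : x % 3 = 0 ∨ x % 3 = 1 ∨ x % 3 = 2) with hx | hx | hx <;>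
      rcases (by omega : y % 3 = 0 ∨ y % 3 = 1 ∨ y % 3 = 2) with hy | hy | hy <;>
      simp [pow_two, Int.add_emod, Int.mul_emod, hx, hy] at h1 ⊢
      exact ⟨Int.dvd_of_emod_eq_zero hx, Int.dvd_of_emod_eq_zero hy⟩
    intro n
    induction n with
    | zero => intro x y z w h _; omega
    | succ n ih =>
      intro x y z w hn h
      obtain ⟨⟨x', hx⟩, ⟨y', hy⟩⟩ := mod3 x y ⟨z ^ 2 + w ^ 2, h⟩
      have h1 : z ^ 2 + w ^ 2 = 3 * (x' ^ 2 + y' ^ 2) := by
        rw [hx, hy] at h; nlinarith
      by_cases h0 : x = 0 ∧ y = 0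
      · obtain ⟨h01, h02⟩ := h0
        rw [h01, h02] at h
        have h2 : z ^ 2 + w ^ 2 = 0 := by nlinarith
        have h3 : z = 0 := by nlinarith [sq_nonneg z, sq_nonneg w]
        have h4 : w = 0 := by nlinarith [sq_nonneg z, sq_nonneg w]
        exact ⟨h01, h02, h3, h4⟩
      · have h5 : z.natAbs + w.natAbs + x'.natAbs + y'.natAbs ≤ n := by
          have : x ≠ 0 ∨ y ≠ 0 := by
            by_contra hcon
            push Not at hcon
            exact h0 hcon
          omega
        obtain ⟨e1, e2, e3, e4⟩ := ih z w x' y' h5 h1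
        subst e1 e2 e3 e4
        simp at hx hy
        exact absurd ⟨hx, hy⟩ h0
  simp only [N] at h
  obtain ⟨h1, h2, h3, h4⟩ := key _ q.re q.imI q.imJ q.imK le_rfl (by linarith)
  ext <;> simp [h1, h2, h3, h4]

end QO

open QO

/-- The group: translations by the order and the congruence subgroup of level 3 of the norm one
units. -/
@[ext] structure Gp where
  m : QO
  c : QO
  norm_c : N c = 1
  cong : ∃ d : QO, c = 1 + (3 : ℤ) • d

namespace Gp

instance : Mul Gp := ⟨fun g h => ⟨h.m + g.m * h.c, g.c * h.c, by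
    rw [N_mul, g.norm_c, h.norm_c, one_mul], by
    obtain ⟨d, hd⟩ := g.cong
    obtain ⟨e, he⟩ := h.cong
    refine ⟨d + e + (3 : ℤ) • (d * e), ?_⟩
    rw [hd, he]
    simp only [mul_add, add_mul, one_mul, mul_one, smul_add, smul_mul_assoc, mul_smul_comm]
    abel⟩⟩

instance : One Gp := ⟨⟨0, 1, N_one, 0, by simp⟩⟩

instance : Inv Gp := ⟨fun g => ⟨-(g.m * star g.c), star g.c, by rw [N_star, g.norm_c], by
    obtain ⟨d, hd⟩ := g.cong
    refine ⟨star d, ?_⟩
    rw [hd, star_add, star_one, star_zsmul]⟩⟩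

theorem mul_m (g h : Gp) : (g * h).m = h.m + g.m * h.c := rfl
theorem mul_c (g h : Gp) : (g * h).c = g.c * h.c := rfl
theorem one_m : (1 : Gp).m = 0 := rfl
theorem one_c : (1 : Gp).c = 1 := rfl
theorem inv_m (g : Gp) : (g⁻¹).m = -(g.m * star g.c) := rfl
theorem inv_c (g : Gp) : (g⁻¹).c = star g.c := rfl

instance : Group Gp := Group.ofLeftAxioms
  (by
    intro a b c
    apply Gp.ext
    · simp only [mul_m, mul_c]; noncomm_ring
    · simp only [mul_c]; noncomm_ring)
  (by
    intro a
    apply Gp.ext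
    · simp only [mul_m, one_m, zero_mul, add_zero]
    · simp only [mul_c, one_c, one_mul])
  (by
    intro a
    apply Gp.ext
    · simp only [mul_m, inv_m, one_m]
      rw [neg_mul, mul_assoc, star_mul_self', a.norm_c, one_smul, mul_one, add_neg_cancel]
    · simp only [mul_c, inv_c, one_c]
      rw [star_mul_self', a.norm_c, one_smul])

end Gp

end Pool.Agent.Helper54.PH
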