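import Pool.Agent.Helper54.PH.Action

set_option autoImplicit false

open scoped ContDiff ComplexConjugate Topology
open Set

namespace Pool.Agent.Helper54.PH

open QO

/-! ### The derivative of the action -/

theorem fderiv_eq_of_line {W : Type} [NormedAddCommGroup W] [NormedSpace ℂ W] {f : V → W} {v w : V}
    {L : W} (hf : DifferentiableAt ℂ f v) (h : HasDerivAt (fun s : ℂ => f (v + s • w)) L 0) :
    fderiv ℂ f v w = L :=
  HasLineDerivAt.unique (hf.hasFDerivAt.hasLineDerivAt w) h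

/-- Derivative of a quotient of affine functions along a line. -/
theorem line_div (num den : ℂ → ℂ) {a b : ℂ} (hn : HasDerivAt num a 0) (hd : HasDerivAt den b 0)
    (h0 : den 0 ≠ 0) :
    HasDerivAt (fun s => num s / den s) ((a * den 0 - num 0 * b) / (den 0) ^ 2) 0 :=
  hn.div hd h0

theorem hasDerivAt_aff (α x w β : ℂ) : HasDerivAt (fun s : ℂ => α * (x + s * w) + β) (α * w) 0 := by
  have h1 : HasDerivAt (fun s : ℂ => s * w) w 0 := by
    simpa using (hasDerivAt_id (0 : ℂ)).mul_const w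
  have h2 : HasDerivAt (fun s : ℂ => x + s * w) w 0 := by
    simpa using h1.const_add x
  have h3 : HasDerivAt (fun s : ℂ => α * (x + s * w)) (α * w) 0 := h2.const_mul α
  simpa using h3.add_const β

theorem fderiv_act (g : Gp) {v : V} (hv : v ∈ XX) (w : V) :
    fderiv ℂ (act g) v w =
      (w.1 / (jj g v.1) ^ 2,
        ((w.2.1 + (A g.m : ℂ) * w.1) * jj g v.1 -
          (v.2.1 + (A g.m : ℂ) * v.1 + (B g.m : ℂ)) * ((C g.c : ℂ) * w.1)) / (jj g v.1) ^ 2,
        ((w.2.2 + (C g.m : ℂ) * w.1) * jj g v.1 -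
          (v.2.2 + (C g.m : ℂ) * v.1 + (D g.m : ℂ)) * ((C g.c : ℂ) * w.1)) / (jj g v.1) ^ 2) := by
  have hj : jj g v.1 ≠ 0 := jj_ne g hv
  apply fderiv_eq_of_line ((act_smooth g hv).differentiableAt (by simp))
  have hden : HasDerivAt (fun s : ℂ => (C g.c : ℂ) * (v.1 + s * w.1) + (D g.c : ℂ))
      ((C g.c : ℂ) * w.1) 0 := hasDerivAt_aff _ _ _ _
  have hden0 : (C g.c : ℂ) * (v.1 + 0 * w.1) + (D g.c : ℂ) = jj g v.1 := by
    simp [jj]
  have hden0' : (C g.c : ℂ) * (v.1 + 0 * w.1) + (D g.c : ℂ) ≠ 0 := by rw [hden0]; exact hj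
  have lin : ∀ z x : ℂ, ∀ α β : ℂ,
      HasDerivAt (fun s : ℂ => (z + s * x) + α * (v.1 + s * w.1) + β) (x + α * w.1) 0 := by
    intro z x α β
    have h1 : HasDerivAt (fun s : ℂ => z + s * x) x 0 := by
      have : HasDerivAt (fun s : ℂ => s * x) x 0 := by
        simpa using (hasDerivAt_id (0 : ℂ)).mul_const x
      simpa using this.const_add z
    have h2 := hasDerivAt_aff α v.1 w.1 β
    have h3 := h1.add h2
    refine h3.congr_of_eventuallyEq (Filter.Eventually.of_forall fun s => ?_)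
    simp only [Pi.add_apply]
    ring
  refine HasDerivAt.prodMk ?_ (HasDerivAt.prodMk ?_ ?_)
  · have h1 := line_div _ _ (hasDerivAt_aff (A g.c : ℂ) v.1 w.1 (B g.c : ℂ)) hden hden0'
    refine h1.congr_deriv ?_
    have hdet : (A g.c : ℂ) * (D g.c : ℂ) - (B g.c : ℂ) * (C g.c : ℂ) = 1 := by
      exact_mod_cast det_one g
    simp only [jj, zero_mul, add_zero]
    congr 1
    linear_combination w.1 * hdet
  · have h1 := line_div _ _ (lin v.2.1 w.2.1 (A g.m : ℂ) (B g.m : ℂ)) hden hden0'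
    simp only [zero_mul, add_zero] at h1
    exact h1
  · have h1 := line_div _ _ (lin v.2.2 w.2.2 (C g.m : ℂ) (D g.m : ℂ)) hden hden0'
    simp only [zero_mul, add_zero] at h1
    exact h1

/-! ### Slopes -/

/-- The slopes of the flat connection. -/
noncomputable def p1 (v : V) : ℝ := v.2.1.im / v.1.im
noncomputable def p2 (v : V) : ℝ := v.2.2.im / v.1.im

theorem slope_aux (c d a b : ℝ) (t z : ℂ) (ht : 0 < t.im) (hj : (c : ℂ) * t + d ≠ 0) :
    ((((z + (a : ℂ) * t + (b : ℂ)) / ((c : ℂ) * t + d)).im /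
      (t.im / Complex.normSq ((c : ℂ) * t + d)) : ℝ) : ℂ) =
    (((z.im / t.im : ℝ) : ℂ) + (a : ℂ)) * ((c : ℂ) * t + d) -
      (z + (a : ℂ) * t + (b : ℂ)) * (c : ℂ) := by
  have hn : Complex.normSq ((c : ℂ) * t + d) ≠ 0 := by
    rw [Ne, Complex.normSq_eq_zero]; exact hj
  have ht' : t.im ≠ 0 := ht.ne'
  have h1 : (((z + (a : ℂ) * t + (b : ℂ)) / ((c : ℂ) * t + d)).im /
      (t.im / Complex.normSq ((c : ℂ) * t + d)) : ℝ) =
      ((z + (a : ℂ) * t + (b : ℂ)).im * ((c : ℂ) * t + d).re -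
        (z + (a : ℂ) * t + (b : ℂ)).re * ((c : ℂ) * t + d).im) / t.im := by
    rw [Complex.div_im]
    generalize (c : ℂ) * t + d = J at hn
    generalize z + (a : ℂ) * t + (b : ℂ) = P
    field_simp
  rw [h1]
  apply Complex.ext
  · simp only [Complex.ofReal_re, Complex.sub_re, Complex.mul_re, Complex.add_re, Complex.add_im,
      Complex.mul_im, Complex.ofReal_im]
    field_simp
    ring
  · simp only [Complex.ofReal_re, Complex.ofReal_im, Complex.sub_im, Complex.mul_re,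
      Complex.add_re, Complex.add_im, Complex.mul_im]
    field_simp
    ring

theorem p1_act (g : Gp) {v : V} (hv : v ∈ XX) :
    ((p1 (act g v) : ℝ) : ℂ) = ((p1 v : ℂ) + (A g.m : ℂ)) * jj g v.1 -
      (v.2.1 + (A g.m : ℂ) * v.1 + (B g.m : ℂ)) * (C g.c : ℂ) := by
  have h := slope_aux (C g.c) (D g.c) (A g.m) (B g.m) v.1 v.2.1 hv (jj_ne g hv)
  have h2 : (act g v).1.im = v.1.im / Complex.normSq (jj g v.1) := act_im g hv
  rw [p1, h2]
  exact h

theorem p2_act (g : Gp) {v : V} (hv : v ∈ XX) :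
    ((p2 (act g v) : ℝ) : ℂ) = ((p2 v : ℂ) + (C g.m : ℂ)) * jj g v.1 -
      (v.2.2 + (C g.m : ℂ) * v.1 + (D g.m : ℂ)) * (C g.c : ℂ) := by
  have h := slope_aux (C g.c) (D g.c) (C g.m) (D g.m) v.1 v.2.2 hv (jj_ne g hv)
  have h2 : (act g v).1.im = v.1.im / Complex.normSq (jj g v.1) := act_im g hv
  rw [p2, h2]
  exact h

/-! ### The metric -/

/-- Vertical components. -/
noncomputable def e1 (v w : V) : ℂ := w.2.1 - (p1 v : ℂ) * w.1
noncomputable def e2 (v w : V) : ℂ := w.2.2 - (p2 v : ℂ) * w.1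

/-- The invariant Kaehler metric. -/
noncomputable def HH (v w w' : V) : ℂ :=
  w.1 * conj w'.1 / (v.1.im : ℂ) ^ 2 +
    (e1 v w * conj (e1 v w') + e2 v w * conj (e2 v w')) / (v.1.im : ℂ)

theorem e1_act (g : Gp) {v : V} (hv : v ∈ XX) (w : V) :
    e1 (act g v) (fderiv ℂ (act g) v w) = e1 v w / jj g v.1 := by
  have hj : jj g v.1 ≠ 0 := jj_ne g hv
  rw [fderiv_act g hv, e1, p1_act g hv, e1]
  simp only
  field_simp
  ring

theorem e2_act (g : Gp) {v : V} (hv : v ∈ XX) (w : V) :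
    e2 (act g v) (fderiv ℂ (act g) v w) = e2 v w / jj g v.1 := by
  have hj : jj g v.1 ≠ 0 := jj_ne g hv
  rw [fderiv_act g hv, e2, p2_act g hv, e2]
  simp only
  field_simp
  ring

theorem HH_act (g : Gp) (v : V) (hv : v ∈ XX) (w w' : V) :
    HH (act g v) (fderiv ℂ (act g) v w) (fderiv ℂ (act g) v w') = HH v w w' := by
  have hj : jj g v.1 ≠ 0 := jj_ne g hv
  have hj' : conj (jj g v.1) ≠ 0 := by simpa using hj
  have hy : (v.1.im : ℂ) ≠ 0 := by
    have : v.1.im ≠ 0 := ne_of_gt hv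
    exact_mod_cast this
  have h2 : (act g v).1.im = v.1.im / Complex.normSq (jj g v.1) := act_im g hv
  have h3 : (Complex.normSq (jj g v.1) : ℂ) = jj g v.1 * conj (jj g v.1) :=
    (Complex.mul_conj _).symm
  have h4 : ∀ x : V, (fderiv ℂ (act g) v x).1 = x.1 / (jj g v.1) ^ 2 := by
    intro x; rw [fderiv_act g hv]
  rw [HH, HH, e1_act g hv, e1_act g hv, e2_act g hv, e2_act g hv, h2, h4, h4]
  push_cast
  rw [h3]
  simp only [map_div₀, map_pow]
  field_simp

theorem HH_add_left (v a b w : V) : HH v (a + b) w = HH v a w + HH v b w := by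
  simp only [HH, e1, e2, Prod.fst_add, Prod.snd_add]
  ring

theorem HH_smul_left (v : V) (c : ℂ) (a w : V) : HH v (c • a) w = c * HH v a w := by
  simp only [HH, e1, e2, Prod.smul_fst, Prod.smul_snd, smul_eq_mul]
  ring

theorem HH_conj (v w w' : V) : HH v w' w = conj (HH v w w') := by
  simp only [HH, map_add, map_mul, map_div₀, map_pow, Complex.conj_conj, Complex.conj_ofReal]
  ring

theorem HH_self (v w : V) : HH v w w =
    ((Complex.normSq w.1 / v.1.im ^ 2 +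
      (Complex.normSq (e1 v w) + Complex.normSq (e2 v w)) / v.1.im : ℝ) : ℂ) := by
  simp only [HH, Complex.mul_conj]
  push_cast
  ring

theorem HH_pos {v : V} (hv : v ∈ XX) {w : V} (hw : w ≠ 0) : 0 < (HH v w w).re := by
  rw [HH_self, Complex.ofReal_re]
  have hy : 0 < v.1.im := hv
  have n1 := Complex.normSq_nonneg w.1
  have n2 := Complex.normSq_nonneg (e1 v w)
  have n3 := Complex.normSq_nonneg (e2 v w)
  by_cases h0 : w.1 = 0
  · by_cases h1 : w.2.1 = 0
    · have h2 : w.2.2 ≠ 0 := by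
        intro h2
        exact hw (Prod.ext h0 (Prod.ext h1 h2))
      have : 0 < Complex.normSq (e2 v w) := by
        apply Complex.normSq_pos.mpr
        rw [e2, h0]; simpa using h2
      positivity
    · have : 0 < Complex.normSq (e1 v w) := by
        apply Complex.normSq_pos.mpr
        rw [e1, h0]; simpa using h1
      positivity
  · have : 0 < Complex.normSq w.1 := Complex.normSq_pos.mpr h0
    positivity

/-! ### Smoothness -/

theorem contDiff_im1 : ContDiff ℝ ∞ (fun v : V => v.1.im) :=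
  Complex.imCLM.contDiff.comp contDiff_fst

theorem contDiff_im2 : ContDiff ℝ ∞ (fun v : V => v.2.1.im) :=
  Complex.imCLM.contDiff.comp (contDiff_fst.comp contDiff_snd)

theorem contDiff_im3 : ContDiff ℝ ∞ (fun v : V => v.2.2.im) :=
  Complex.imCLM.contDiff.comp (contDiff_snd.comp contDiff_snd)

theorem contDiffAt_p1 {v : V} (hv : v ∈ XX) : ContDiffAt ℝ ∞ p1 v :=
  contDiff_im2.contDiffAt.div contDiff_im1.contDiffAt (ne_of_gt hv)

theorem contDiffAt_p2 {v : V} (hv : v ∈ XX) : ContDiffAt ℝ ∞ p2 v :=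
  contDiff_im3.contDiffAt.div contDiff_im1.contDiffAt (ne_of_gt hv)

theorem ofReal_contDiffAt {f : V → ℝ} {v : V} (h : ContDiffAt ℝ ∞ f v) :
    ContDiffAt ℝ ∞ (fun x => (f x : ℂ)) v :=
  Complex.ofRealCLM.contDiff.contDiffAt.comp v h

theorem contDiffAt_HH {v : V} (hv : v ∈ XX) (w w' : V) :
    ContDiffAt ℝ ∞ (fun x => HH x w w') v := by
  have hy : (v.1.im : ℂ) ≠ 0 := by
    have : v.1.im ≠ 0 := ne_of_gt hv
    exact_mod_cast this
  have h1 := ofReal_contDiffAt (contDiffAt_p1 hv)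
  have h2 := ofReal_contDiffAt (contDiffAt_p2 hv)
  have h3 := ofReal_contDiffAt (contDiff_im1.contDiffAt (x := v))
  have hfun : (fun x => HH x w w') = fun x : V =>
      w.1 * conj w'.1 * ((x.1.im : ℂ) ^ 2)⁻¹ +
      ((w.2.1 - (p1 x : ℂ) * w.1) * (conj w'.2.1 - (p1 x : ℂ) * conj w'.1) +
        (w.2.2 - (p2 x : ℂ) * w.1) * (conj w'.2.2 - (p2 x : ℂ) * conj w'.1)) *
        (x.1.im : ℂ)⁻¹ := by
    funext x
    simp only [HH, e1, e2, map_sub, map_mul, Complex.conj_ofReal, div_eq_mul_inv]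
  rw [hfun]
  have c1 : ∀ c : ℂ, ContDiffAt ℝ ∞ (fun _ : V => c) v := fun c => contDiffAt_const
  have k0 : ContDiffAt ℝ ∞ (fun x : V => (x.1.im : ℂ) ^ 2) v := h3.pow 2
  have k1 : ContDiffAt ℝ ∞ (fun x : V => w.1 * conj w'.1 * ((x.1.im : ℂ) ^ 2)⁻¹) v :=
    (c1 _).mul (k0.inv (pow_ne_zero 2 hy))
  have k2 : ContDiffAt ℝ ∞ (fun x : V => w.2.1 - (p1 x : ℂ) * w.1) v :=
    (c1 _).sub (h1.mul (c1 _))
  have k3 : ContDiffAt ℝ ∞ (fun x : V => conj w'.2.1 - (p1 x : ℂ) * conj w'.1) v :=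
    (c1 _).sub (h1.mul (c1 _))
  have k4 : ContDiffAt ℝ ∞ (fun x : V => w.2.2 - (p2 x : ℂ) * w.1) v :=
    (c1 _).sub (h2.mul (c1 _))
  have k5 : ContDiffAt ℝ ∞ (fun x : V => conj w'.2.2 - (p2 x : ℂ) * conj w'.1) v :=
    (c1 _).sub (h2.mul (c1 _))
  exact k1.add (((k2.mul k3).add (k4.mul k5)).mul (h3.inv hy))

/-! ### Closedness -/

/-- The imaginary part as a function of the three imaginary parts. -/
noncomputable def WW (K0 K J1 J2 y q1 q2 : ℝ) : ℝ :=
  K0 / y ^ 2 + K / y - (q1 * J1 + q2 * J2) / y ^ 2 + (q1 ^ 2 + q2 ^ 2) * K0 / y ^ 3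

theorem HH_im {v : V} (hv : v ∈ XX) (u w : V) :
    (HH v u w).im = WW ((u.1 * conj w.1).im) ((u.2.1 * conj w.2.1).im + (u.2.2 * conj w.2.2).im)
      ((u.1 * conj w.2.1).im + (u.2.1 * conj w.1).im)
      ((u.1 * conj w.2.2).im + (u.2.2 * conj w.1).im) v.1.im v.2.1.im v.2.2.im := by
  have hy : v.1.im ≠ 0 := ne_of_gt hv
  have hfun : HH v u w = (((v.1.im ^ 2)⁻¹ : ℝ) : ℂ) * (u.1 * conj w.1) +
      (((v.1.im)⁻¹ : ℝ) : ℂ) * (u.2.1 * conj w.2.1 - ((p1 v : ℝ) : ℂ) * (u.1 * conj w.2.1)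
        - ((p1 v : ℝ) : ℂ) * (u.2.1 * conj w.1) + ((p1 v ^ 2 : ℝ) : ℂ) * (u.1 * conj w.1)
        + (u.2.2 * conj w.2.2 - ((p2 v : ℝ) : ℂ) * (u.1 * conj w.2.2)
        - ((p2 v : ℝ) : ℂ) * (u.2.2 * conj w.1) + ((p2 v ^ 2 : ℝ) : ℂ) * (u.1 * conj w.1))) := by
    simp only [HH, e1, e2, map_sub, map_mul, Complex.conj_ofReal]
    push_cast
    field_simp
    ring
  rw [hfun]
  simp only [Complex.add_im, Complex.sub_im, Complex.im_ofReal_mul]
  rw [WW, p1, p2]
  field_simp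
  ring

theorem WW_deriv (K0 K J1 J2 y q1 q2 y' q1' q2' : ℝ) (hy : y ≠ 0) :
    HasDerivAt (fun s : ℝ => WW K0 K J1 J2 (y + s * y') (q1 + s * q1') (q2 + s * q2'))
      (-2 * K0 * y' / y ^ 3 - K * y' / y ^ 2 - (q1' * J1 + q2' * J2) / y ^ 2
        + 2 * (q1 * J1 + q2 * J2) * y' / y ^ 3 + 2 * (q1 * q1' + q2 * q2') * K0 / y ^ 3
        - 3 * (q1 ^ 2 + q2 ^ 2) * K0 * y' / y ^ 4) 0 := by
  have lin : ∀ a b : ℝ, HasDerivAt (fun s : ℝ => a + s * b) b 0 := by
    intro a b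
    have : HasDerivAt (fun s : ℝ => s * b) b 0 := by
      simpa using (hasDerivAt_id (0 : ℝ)).mul_const b
    simpa using this.const_add a
  have hY := lin y y'
  have hQ1 := lin q1 q1'
  have hQ2 := lin q2 q2'
  have hy0 : y + 0 * y' ≠ 0 := by simpa using hy
  have t1 := (hasDerivAt_const (0 : ℝ) K0).div (hY.pow 2) (pow_ne_zero 2 hy0)
  have t2 := (hasDerivAt_const (0 : ℝ) K).div hY hy0
  have t3 := ((hQ1.mul_const J1).add (hQ2.mul_const J2)).div (hY.pow 2) (pow_ne_zero 2 hy0)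
  have t4 := (((hQ1.pow 2).add (hQ2.pow 2)).mul_const K0).div (hY.pow 3) (pow_ne_zero 3 hy0)
  have t := ((t1.add t2).sub t3).add t4
  refine HasDerivAt.congr_deriv (f' := _) (t.congr_of_eventuallyEq
    (Filter.Eventually.of_forall fun s => ?_)) ?_
  · simp only [WW, Pi.add_apply, Pi.sub_apply, Pi.div_apply, Pi.pow_apply]
  · simp only [Pi.add_apply, Pi.pow_apply]
    field_simp
    ring

theorem fderiv_HH_im {v : V} (hv : v ∈ XX) (u w r : V) :
    fderiv ℝ (fun x => (HH x u w).im) v r =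
      -2 * (u.1 * conj w.1).im * r.1.im / v.1.im ^ 3
        - ((u.2.1 * conj w.2.1).im + (u.2.2 * conj w.2.2).im) * r.1.im / v.1.im ^ 2
        - (r.2.1.im * ((u.1 * conj w.2.1).im + (u.2.1 * conj w.1).im)
          + r.2.2.im * ((u.1 * conj w.2.2).im + (u.2.2 * conj w.1).im)) / v.1.im ^ 2
        + 2 * (v.2.1.im * ((u.1 * conj w.2.1).im + (u.2.1 * conj w.1).im)
          + v.2.2.im * ((u.1 * conj w.2.2).im + (u.2.2 * conj w.1).im)) * r.1.im / v.1.im ^ 3
        + 2 * (v.2.1.im * r.2.1.im + v.2.2.im * r.2.2.im) * (u.1 * conj w.1).im / v.1.im ^ 3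
        - 3 * (v.2.1.im ^ 2 + v.2.2.im ^ 2) * (u.1 * conj w.1).im * r.1.im / v.1.im ^ 4 := by
  have hdiff : DifferentiableAt ℝ (fun x => (HH x u w).im) v :=
    (Complex.imCLM.contDiff.contDiffAt.comp v (contDiffAt_HH hv u w)).differentiableAt (by simp)
  refine HasLineDerivAt.unique (hdiff.hasFDerivAt.hasLineDerivAt r) ?_
  have hy : v.1.im ≠ 0 := ne_of_gt hv
  have h := WW_deriv ((u.1 * conj w.1).im) ((u.2.1 * conj w.2.1).im + (u.2.2 * conj w.2.2).im)
      ((u.1 * conj w.2.1).im + (u.2.1 * conj w.1).im)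
      ((u.1 * conj w.2.2).im + (u.2.2 * conj w.1).im) v.1.im v.2.1.im v.2.2.im
      r.1.im r.2.1.im r.2.2.im hy
  refine HasDerivAt.congr_of_eventuallyEq h ?_
  have hcont : ContinuousAt (fun s : ℝ => v + s • r) 0 := by fun_prop
  have hnear : ∀ᶠ s : ℝ in 𝓝 0, v + s • r ∈ XX := by
    apply hcont.eventually_mem
    simpa using isOpen_XX.mem_nhds hv
  filter_upwards [hnear] with s hs
  rw [HH_im hs]
  congr 1 <;> simp

theorem HH_closed {v : V} (hv : v ∈ XX) (u w r : V) :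
    fderiv ℝ (fun x => (HH x w r).im) v u + fderiv ℝ (fun x => (HH x r u).im) v w +
      fderiv ℝ (fun x => (HH x u w).im) v r = 0 := by
  rw [fderiv_HH_im hv, fderiv_HH_im hv, fderiv_HH_im hv]
  have hy : v.1.im ≠ 0 := ne_of_gt hv
  simp only [Complex.mul_im, Complex.conj_re, Complex.conj_im]
  field_simp
  ring

end Pool.Agent.Helper54.PH
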