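import Pool.Agent.Helper54.PH.Topo

set_option autoImplicit false

open scoped ContDiff ComplexConjugate Topology ENNReal
open Set Topology MeasureTheory

namespace Pool.Agent.Helper54.PH

open QO

/-- The matrix of the lattice embedding. -/
noncomputable def TM (u : ℝ) : Matrix (Fin 4) (Fin 4) ℝ :=
  !![1, 0, √3, 0; u, 1, √3 * u, -√3; 0, -1, 0, -√3; 1, -u, -√3, -√3 * u]

theorem det_TM (u : ℝ) : (TM u).det = -12 := by
  have h := sq3
  simp only [TM, Matrix.det_succ_row_zero, Fin.sum_univ_succ]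
  simp [Matrix.submatrix_apply, Fin.succAbove]
  linear_combination (-2) * h

theorem minkowski_step (u v : ℝ) (hv : 0 < v) : ∃ y : QO, y ≠ 0 ∧
    |A y| ≤ 2 / √v ∧ |A y * u + B y| ≤ 2 * √v ∧ |C y| ≤ 2 / √v ∧ |C y * u + D y| ≤ 2 * √v := by
  have hsv : 0 < √v := Real.sqrt_pos.mpr hv
  let r : Fin 4 → ℝ := ![2 / √v, 2 * √v, 2 / √v, 2 * √v]
  let S : Set (Fin 4 → ℝ) := Set.Icc (-r) r
  let f : (Fin 4 → ℝ) →ₗ[ℝ] (Fin 4 → ℝ) := Matrix.toLin' (TM u)
  have hdet : LinearMap.det f = -12 := by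
    simp only [f, LinearMap.det_toLin', det_TM]
  have hS : volume S = ENNReal.ofReal 256 := by
    simp only [S]
    rw [Real.volume_Icc_pi, Fin.prod_univ_four]
    simp only [r, Pi.neg_apply, Matrix.cons_val_zero, Matrix.cons_val_one, Matrix.cons_val,
      sub_neg_eq_add]
    rw [← ENNReal.ofReal_mul (by positivity), ← ENNReal.ofReal_mul (by positivity),
      ← ENNReal.ofReal_mul (by positivity)]
    congr 1
    field_simp
    norm_num
  have hpre : volume (f ⁻¹' S) = ENNReal.ofReal (256 / 12) := by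
    rw [Measure.addHaar_preimage_linearMap volume (by rw [hdet]; norm_num), hS, hdet,
      ← ENNReal.ofReal_mul (by positivity)]
    congr 1
    norm_num
  let b := Pi.basisFun ℝ (Fin 4)
  let L : AddSubgroup (Fin 4 → ℝ) := (Submodule.span ℤ (Set.range b)).toAddSubgroup
  have hF : volume (ZSpan.fundamentalDomain b) = 1 := by
    simp only [b]
    rw [ZSpan.fundamentalDomain_pi_basisFun, volume_pi, Measure.pi_pi, Real.volume_Ico, sub_zero,
      ENNReal.ofReal_one, Finset.prod_const_one]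
  have fund := ZSpan.isAddFundamentalDomain' b (volume : Measure (Fin 4 → ℝ))
  have hcount : Countable L := by
    have : Countable (Submodule.span ℤ (Set.range b)) := inferInstance
    exact this
  have hsymm : ∀ x ∈ f ⁻¹' S, -x ∈ f ⁻¹' S := by
    intro x hx
    simp only [S, Set.mem_preimage, Set.mem_Icc] at hx ⊢
    rw [map_neg]
    exact ⟨neg_le_neg hx.2, by simpa using neg_le_neg hx.1⟩
  have hconv : Convex ℝ (f ⁻¹' S) := (convex_Icc _ _).linear_preimage f
  have hlt : volume (ZSpan.fundamentalDomain b) * 2 ^ Module.finrank ℝ (Fin 4 → ℝ) <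
      volume (f ⁻¹' S) := by
    rw [hF, hpre, Module.finrank_fin_fun, one_mul]
    rw [show (2 : ℝ≥0∞) ^ 4 = ENNReal.ofReal 16 by
      rw [show (16 : ℝ) = 2 ^ 4 by norm_num, ENNReal.ofReal_pow (by norm_num)]; simp]
    exact ENNReal.ofReal_lt_ofReal_iff (by norm_num) |>.mpr (by norm_num)
  obtain ⟨x, hx0, hx⟩ := exists_ne_zero_mem_lattice_of_measure_mul_two_pow_lt_measure
    (L := L) fund hsymm hconv hlt
  have hxL : (x : Fin 4 → ℝ) ∈ Submodule.span ℤ (Set.range b) := x.2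
  have hint : ∀ i, ∃ n : ℤ, (x : Fin 4 → ℝ) i = n := by
    intro i
    have h1 := (b.mem_span_iff_repr_mem ℤ (x : Fin 4 → ℝ)).mp hxL i
    obtain ⟨n, hn⟩ := h1
    refine ⟨n, ?_⟩
    simp only [b, Pi.basisFun_repr] at hn
    rw [← hn]; simp
  choose n hn using hint
  refine ⟨⟨n 0, n 1, n 2, n 3⟩, ?_, ?_⟩
  · intro h
    apply hx0
    apply Subtype.ext
    funext i
    have e0 : n 0 = 0 := congrArg QuaternionAlgebra.re h
    have e1 : n 1 = 0 := congrArg QuaternionAlgebra.imI h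
    have e2 : n 2 = 0 := congrArg QuaternionAlgebra.imJ h
    have e3 : n 3 = 0 := congrArg QuaternionAlgebra.imK h
    rw [hn i]
    fin_cases i <;> simp [e0, e1, e2, e3]
  · have h0 := hx.1
    have h1 := hx.2
    have k : ∀ i, -(r i) ≤ f x i ∧ f x i ≤ r i := fun i => ⟨h0 i, h1 i⟩
    have k0 := k 0
    have k1 := k 1
    have k2 := k 2
    have k3 := k 3
    simp only [f, Matrix.toLin'_apply, TM, Matrix.mulVec, dotProduct, Fin.sum_univ_four, hn, r,
      Matrix.of_apply, Matrix.cons_val_zero, Matrix.cons_val_one, Matrix.cons_val] at k0 k1 k2 k3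
    simp only [abs_le, A, B, C, D]
    refine ⟨⟨?_, ?_⟩, ⟨?_, ?_⟩, ⟨?_, ?_⟩, ⟨?_, ?_⟩⟩ <;> nlinarith [k0.1, k0.2, k1.1, k1.2, k2.1, k2.2, k3.1, k3.2]

end Pool.Agent.Helper54.PH
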