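import Pool.Agent.Helper54.PH.Action
import Pool.Agent.Helper54.PH.Cover

set_option autoImplicit false

open scoped ContDiff ComplexConjugate Topology
open Set Topology

namespace Pool.Agent.Helper54.PH

open QO

/-! ### Finiteness -/

theorem finite_QO (R : ℝ) : {q : QO | |A q| ≤ R ∧ |B q| ≤ R ∧ |C q| ≤ R ∧ |D q| ≤ R}.Finite := by
  obtain ⟨n, hn⟩ := exists_nat_ge R
  have hbox : ((Set.Icc (-(n : ℤ)) n) ×ˢ (Set.Icc (-(n : ℤ)) n) ×ˢ (Set.Icc (-(n : ℤ)) n) ×ˢ
      (Set.Icc (-(n : ℤ)) n)).Finite :=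
    (Set.finite_Icc _ _).prod ((Set.finite_Icc _ _).prod ((Set.finite_Icc _ _).prod
      (Set.finite_Icc _ _)))
  refine (hbox.image (fun p => (⟨p.1, p.2.1, p.2.2.1, p.2.2.2⟩ : QO))).subset ?_
  rintro q ⟨hA, hB, hC, hD⟩
  have h3 := s3_pos
  have h3' : (1 : ℝ) ≤ √3 := by
    rw [show (1 : ℝ) = √1 by simp]
    exact Real.sqrt_le_sqrt (by norm_num)
  rw [abs_le] at hA hB hC hD
  simp only [A, B, C, D] at hA hB hC hD
  have key : ∀ x : ℤ, (-(n : ℝ)) ≤ x → (x : ℝ) ≤ n → x ∈ Set.Icc (-(n : ℤ)) n := by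
    intro x h1 h2
    constructor
    · exact_mod_cast h1
    · exact_mod_cast h2
  have keys : ∀ x : ℝ, -R ≤ √3 * x → √3 * x ≤ R → -(n : ℝ) ≤ x ∧ x ≤ n := by
    intro x h1 h2
    have hR : 0 ≤ R := by linarith
    constructor
    · by_contra hcon
      push Not at hcon
      have hx : x < 0 := by
        have : (0 : ℝ) ≤ n := Nat.cast_nonneg n
        linarith
      nlinarith
    · by_contra hcon
      push Not at hcon
      have hx : 0 < x := by
        have : (0 : ℝ) ≤ n := Nat.cast_nonneg n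
        linarith
      nlinarith
  refine ⟨(q.re, q.imI, q.imJ, q.imK), ⟨?_, ?_, ?_, ?_⟩, ?_⟩
  · apply key <;> linarith
  · apply key <;> linarith
  · obtain ⟨k1, k2⟩ := keys q.imJ (by linarith) (by linarith)
    exact key _ k1 k2
  · obtain ⟨k1, k2⟩ := keys q.imK (by linarith) (by linarith)
    exact key _ k1 k2
  · rfl

theorem bound_lin {α β ε R S : ℝ} {t : ℂ} (hε : 0 < ε) (h1 : ε ≤ t.im) (h2 : ‖t‖ ≤ R)
    (h3 : ‖(α : ℂ) * t + (β : ℂ)‖ ≤ S) : |α| ≤ S / ε ∧ |β| ≤ S + S / ε * R := by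
  have h4 : |α| * t.im ≤ S := by
    have h5 := Complex.abs_im_le_norm ((α : ℂ) * t + (β : ℂ))
    have h6 : ((α : ℂ) * t + (β : ℂ)).im = α * t.im := by simp
    rw [h6, abs_mul, abs_of_pos (lt_of_lt_of_le hε h1)] at h5
    exact h5.trans h3
  have h5 : |α| ≤ S / ε := by
    rw [le_div_iff₀ hε]
    exact (mul_le_mul_of_nonneg_left h1 (abs_nonneg α)).trans h4
  refine ⟨h5, ?_⟩
  have h6 : (β : ℂ) = ((α : ℂ) * t + (β : ℂ)) - (α : ℂ) * t := by ring
  have h7 : |β| = ‖(β : ℂ)‖ := by simp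
  rw [h7, h6]
  refine (norm_sub_le _ _).trans (add_le_add h3 ?_)
  rw [norm_mul, Complex.norm_real, Real.norm_eq_abs]
  have hS : 0 ≤ S / ε := (abs_nonneg α).trans h5
  exact mul_le_mul h5 h2 (norm_nonneg _) hS

/-- The set of points with bounded norm and imaginary part bounded below. -/
def box (ε R : ℝ) : Set V := {v | ‖v‖ ≤ R ∧ ε ≤ v.1.im}

theorem finite_Gp {ε R : ℝ} (hε : 0 < ε) (hR : 0 ≤ R) :
    {g : Gp | ∃ v ∈ box ε R, act g v ∈ box ε R}.Finite := by
  set J : ℝ := 1 + R / ε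
  set S : ℝ := R * J + R
  set T : ℝ := S / ε + (S + S / ε * R) + J / ε + (J + J / ε * R)
  have hJ : 0 ≤ J := by positivity
  have hS : 0 ≤ S := by positivity
  have hfin := finite_QO T
  refine ((hfin.prod hfin).preimage (f := fun g : Gp => (g.m, g.c)) ?_).subset ?_
  · intro g _ g' _ h
    exact Gp.ext (congrArg Prod.fst h) (congrArg Prod.snd h)
  rintro g ⟨v, ⟨hv1, hv2⟩, ⟨hw1, hw2⟩⟩
  have ht : 0 < v.1.im := lt_of_lt_of_le hε hv2
  have hj := jj_ne g ht
  have hn1 : ‖v.1‖ ≤ R := (norm_fst_le v).trans hv1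
  have hn2 : ‖v.2.1‖ ≤ R := ((norm_fst_le v.2).trans (norm_snd_le v)).trans hv1
  have hn3 : ‖v.2.2‖ ≤ R := ((norm_snd_le v.2).trans (norm_snd_le v)).trans hv1
  have hm1 : ‖(act g v).1‖ ≤ R := (norm_fst_le _).trans hw1
  have hm2 : ‖(act g v).2.1‖ ≤ R := ((norm_fst_le (act g v).2).trans (norm_snd_le _)).trans hw1
  have hm3 : ‖(act g v).2.2‖ ≤ R := ((norm_snd_le (act g v).2).trans (norm_snd_le _)).trans hw1
  have hjn : ‖jj g v.1‖ ≤ J := by
    have h1 : (act g v).1.im = v.1.im / Complex.normSq (jj g v.1) := act_im g ht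
    have h2 : ε ≤ v.1.im / Complex.normSq (jj g v.1) := h1 ▸ hw2
    have h3 : 0 < Complex.normSq (jj g v.1) := Complex.normSq_pos.mpr hj
    rw [le_div_iff₀ h3] at h2
    have h4 : v.1.im ≤ R := (Complex.im_le_norm _).trans hn1
    have h5 : Complex.normSq (jj g v.1) ≤ R / ε := by
      rw [le_div_iff₀ hε]; linarith
    rw [Complex.normSq_eq_norm_sq] at h5
    by_contra hcon
    push Not at hcon
    have h6 : 1 ≤ ‖jj g v.1‖ := by
      have : (0 : ℝ) ≤ R / ε := by positivity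
      simp only [J] at hcon
      linarith
    have h7 : ‖jj g v.1‖ ≤ ‖jj g v.1‖ ^ 2 := by nlinarith
    simp only [J] at hcon
    linarith
  have e1 : (A g.c : ℂ) * v.1 + (B g.c : ℂ) = (act g v).1 * jj g v.1 := by
    show _ = ((A g.c : ℂ) * v.1 + (B g.c : ℂ)) / jj g v.1 * jj g v.1
    rw [div_mul_cancel₀ _ hj]
  have e2 : (A g.m : ℂ) * v.1 + (B g.m : ℂ) = (act g v).2.1 * jj g v.1 - v.2.1 := by
    show _ = (v.2.1 + (A g.m : ℂ) * v.1 + (B g.m : ℂ)) / jj g v.1 * jj g v.1 - v.2.1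
    rw [div_mul_cancel₀ _ hj]; ring
  have e3 : (C g.m : ℂ) * v.1 + (D g.m : ℂ) = (act g v).2.2 * jj g v.1 - v.2.2 := by
    show _ = (v.2.2 + (C g.m : ℂ) * v.1 + (D g.m : ℂ)) / jj g v.1 * jj g v.1 - v.2.2
    rw [div_mul_cancel₀ _ hj]; ring
  have b1 : ‖(A g.c : ℂ) * v.1 + (B g.c : ℂ)‖ ≤ S := by
    rw [e1, norm_mul]
    exact (mul_le_mul hm1 hjn (norm_nonneg _) hR).trans (by simp only [S]; linarith)
  have b2 : ‖(A g.m : ℂ) * v.1 + (B g.m : ℂ)‖ ≤ S := by
    rw [e2]
    refine (norm_sub_le _ _).trans (add_le_add ?_ hn2)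
    rw [norm_mul]
    exact mul_le_mul hm2 hjn (norm_nonneg _) hR
  have b3 : ‖(C g.m : ℂ) * v.1 + (D g.m : ℂ)‖ ≤ S := by
    rw [e3]
    refine (norm_sub_le _ _).trans (add_le_add ?_ hn3)
    rw [norm_mul]
    exact mul_le_mul hm3 hjn (norm_nonneg _) hR
  have b4 : ‖(C g.c : ℂ) * v.1 + (D g.c : ℂ)‖ ≤ J := hjn
  obtain ⟨c1, c2⟩ := bound_lin hε hv2 hn1 b1
  obtain ⟨c3, c4⟩ := bound_lin hε hv2 hn1 b2
  obtain ⟨c5, c6⟩ := bound_lin hε hv2 hn1 b3
  obtain ⟨c7, c8⟩ := bound_lin hε hv2 hn1 b4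
  have p1 : 0 ≤ S / ε := by positivity
  have p2 : 0 ≤ S + S / ε * R := by positivity
  have p3 : 0 ≤ J / ε := by positivity
  have p4 : 0 ≤ J + J / ε * R := by positivity
  refine ⟨⟨?_, ?_, ?_, ?_⟩, ⟨?_, ?_, ?_, ?_⟩⟩ <;> simp only [T] <;> linarith

/-! ### The action on the subtype -/

noncomputable instance : MulAction Gp XX where
  smul g v := ⟨act g v, act_mem g v.2⟩
  one_smul v := Subtype.ext (act_one _)
  mul_smul g h v := Subtype.ext (act_mul g h v.2)

theorem coe_smul (g : Gp) (v : XX) : ((g • v : XX) : V) = act g v := rfl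

instance : ContinuousConstSMul Gp XX where
  continuous_const_smul g := by
    apply Continuous.subtype_mk
    rw [continuous_iff_continuousAt]
    intro v
    exact ContinuousAt.comp (f := fun x : XX => (x : V)) (g := act g)
      (act_smooth g v.2).continuousAt continuous_subtype_val.continuousAt

theorem compact_subset_box {K : Set XX} (hK : IsCompact K) :
    ∃ ε R : ℝ, 0 < ε ∧ 0 ≤ R ∧ ∀ v ∈ K, (v : V) ∈ box ε R := by
  rcases K.eq_empty_or_nonempty with rfl | hne
  · exact ⟨1, 0, one_pos, le_rfl, fun v hv => absurd hv (Set.notMem_empty v)⟩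
  obtain ⟨v0, hv0, hmin⟩ := hK.exists_isMinOn hne
    (f := fun v : XX => (v : V).1.im)
    ((Complex.continuous_im.comp (continuous_fst.comp continuous_subtype_val)).continuousOn)
  obtain ⟨v1, hv1, hmax⟩ := hK.exists_isMaxOn hne
    (f := fun v : XX => ‖(v : V)‖) ((continuous_norm.comp continuous_subtype_val).continuousOn)
  exact ⟨(v0 : V).1.im, ‖(v1 : V)‖, v0.2, norm_nonneg _, fun v hv => ⟨hmax hv, hmin hv⟩⟩

instance : ProperlyDiscontinuousSMul Gp XX where
  finite_disjoint_inter_image := by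
    intro K L hK hL
    obtain ⟨ε1, R1, hε1, hR1, h1⟩ := compact_subset_box hK
    obtain ⟨ε2, R2, hε2, hR2, h2⟩ := compact_subset_box hL
    refine (finite_Gp (lt_min hε1 hε2) (le_max_of_le_left hR1 : 0 ≤ max R1 R2)).subset ?_
    rintro g ⟨w, ⟨v, hv, rfl⟩, hw⟩
    obtain ⟨a1, a2⟩ := h1 v hv
    obtain ⟨b1, b2⟩ := h2 _ hw
    exact ⟨v, ⟨a1.trans (le_max_left _ _), (min_le_left _ _).trans a2⟩,
      ⟨b1.trans (le_max_right _ _), (min_le_right _ _).trans b2⟩⟩

instance : IsCancelSMul Gp XX := by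
  rw [isCancelSMul_iff_eq_one_of_smul_eq]
  intro g v h
  exact act_free g v.2 (congrArg Subtype.val h)

instance : LocallyCompactSpace XX := isOpen_XX.locallyCompactSpace

/-! ### The quotient -/

/-- The compact complex manifold. -/
def MM : Type := Quotient (MulAction.orbitRel Gp XX)

instance : TopologicalSpace MM :=
  inferInstanceAs (TopologicalSpace (Quotient (MulAction.orbitRel Gp XX)))

instance : T2Space MM :=
  inferInstanceAs (T2Space (Quotient (MulAction.orbitRel Gp XX)))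

/-- The projection. -/
noncomputable def pr (v : XX) : MM := Quotient.mk (MulAction.orbitRel Gp XX) v

theorem base_mem : ((Complex.I, 0, 0) : V) ∈ XX := by simp [XX]

open Classical in
/-- The projection extended by a constant. -/
noncomputable def qq (v : V) : MM := if h : v ∈ XX then pr ⟨v, h⟩ else pr ⟨_, base_mem⟩

theorem qq_of_mem {v : V} (h : v ∈ XX) : qq v = pr ⟨v, h⟩ := dif_pos h

theorem pr_eq_iff {v w : XX} : pr v = pr w ↔ ∃ g : Gp, (w : V) = act g v := by
  have h0 : pr v = pr w ↔ v ∈ MulAction.orbit Gp w :=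
    (Quotient.eq (r := MulAction.orbitRel Gp XX)).trans MulAction.orbitRel_apply
  rw [h0]
  constructor
  · rintro ⟨g, hg⟩
    refine ⟨g⁻¹, ?_⟩
    have : w = g⁻¹ • v := by
      rw [← hg]; exact (inv_smul_smul g w).symm
    rw [this, coe_smul]
  · rintro ⟨g, hg⟩
    refine ⟨g⁻¹, ?_⟩
    have : w = g • v := Subtype.ext hg
    show g⁻¹ • w = v
    rw [this, inv_smul_smul]

theorem exists_chart (v : XX) : ∃ φ : OpenPartialHomeomorph MM V, pr v ∈ φ.source ∧
    φ.target ⊆ XX ∧ ∀ z ∈ φ.target, φ.symm z = qq z := by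
  have h : IsQuotientCoveringMap (Quotient.mk (MulAction.orbitRel Gp XX)) Gp :=
    isQuotientCoveringMap_quotientMk_of_properlyDiscontinuousSMul
  have hloc : IsLocalHomeomorph (Quotient.mk (MulAction.orbitRel Gp XX)) :=
    h.isCoveringMap.isLocalHomeomorph
  obtain ⟨e, he1, he2⟩ := hloc v
  have hemb : IsOpenEmbedding (Subtype.val : XX → V) := isOpen_XX.isOpenEmbedding_subtypeVal
  have : Nonempty XX := ⟨v⟩
  let ι : OpenPartialHomeomorph XX V := hemb.toOpenPartialHomeomorph Subtype.val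
  let φ : OpenPartialHomeomorph MM V := e.symm.trans ι
  have hφ : ∀ z, z ∈ φ.target ↔ ∃ h : z ∈ XX, (⟨z, h⟩ : XX) ∈ e.source := by
    intro z
    simp only [φ, OpenPartialHomeomorph.trans_target, OpenPartialHomeomorph.symm_target]
    constructor
    · rintro ⟨h1, h2⟩
      simp only [ι, IsOpenEmbedding.toOpenPartialHomeomorph_target] at h1
      obtain ⟨w, rfl⟩ := h1
      refine ⟨w.2, ?_⟩
      have h3 : ι.symm (w : V) = w :=
        ι.left_inv (by simp [ι])
      rw [Set.mem_preimage, h3] at h2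
      exact h2
    · rintro ⟨h1, h2⟩
      have h3 : ι.symm z = ⟨z, h1⟩ :=
        ι.left_inv (x := ⟨z, h1⟩) (by simp [ι])
      refine ⟨?_, ?_⟩
      · simp only [ι, IsOpenEmbedding.toOpenPartialHomeomorph_target]
        exact ⟨⟨z, h1⟩, rfl⟩
      · rw [Set.mem_preimage, h3]
        exact h2
  refine ⟨φ, ?_, ?_, ?_⟩
  · simp only [φ, OpenPartialHomeomorph.trans_source, OpenPartialHomeomorph.symm_source]
    have h4 : pr v = e v := by rw [pr, he2]
    refine ⟨?_, ?_⟩
    · rw [h4]; exact e.map_source he1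
    · simp [ι]
  · intro z hz
    exact ((hφ z).mp hz).1
  · intro z hz
    obtain ⟨h1, h2⟩ := (hφ z).mp hz
    have h3 : ι.symm z = ⟨z, h1⟩ :=
      ι.left_inv (x := ⟨z, h1⟩) (by simp [ι])
    have h4 : φ.symm z = e (ι.symm z) := rfl
    rw [h4, h3, qq_of_mem h1, pr, he2]

theorem pr_surjective : Function.Surjective pr := Quotient.mk_surjective

theorem exists_chart' (m : MM) : ∃ φ : OpenPartialHomeomorph MM V, m ∈ φ.source ∧
    φ.target ⊆ XX ∧ ∀ z ∈ φ.target, φ.symm z = qq z := by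
  obtain ⟨v, rfl⟩ := pr_surjective m
  exact exists_chart v

/-- The complex manifold structure on the quotient: the charts are the local inverses of the
projection. -/
noncomputable instance : ChartedSpace V MM where
  atlas := {φ | φ.target ⊆ XX ∧ ∀ z ∈ φ.target, φ.symm z = qq z}
  chartAt m := Classical.choose (exists_chart' m)
  mem_chart_source m := (Classical.choose_spec (exists_chart' m)).1
  chart_mem_atlas m := (Classical.choose_spec (exists_chart' m)).2

theorem coverData : CoverData qq XX act where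
  isOpen := isOpen_XX
  act_mem g z hz := act_mem g hz
  act_one z _ := act_one z
  act_mul g h z hz := act_mul g h hz
  act_smooth g z hz := act_smooth g hz
  surj m := by
    obtain ⟨v, hv⟩ := pr_surjective m
    exact ⟨v, v.2, by rw [qq_of_mem v.2]; exact hv⟩
  q_eq z hz w hw h := by
    rw [qq_of_mem hz, qq_of_mem hw, pr_eq_iff] at h
    exact h
  q_act g z hz := by
    rw [qq_of_mem hz, qq_of_mem (act_mem g hz), eq_comm, pr_eq_iff]
    exact ⟨g, rfl⟩
  atlas_spec φ hφ := hφ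

end Pool.Agent.Helper54.PH
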